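import Mathlib
import Pool.Agent.H97.CL.Av

/-!
# Project CM: the moment curve has small bias

`sg e (x, y) = (y x^{e r})_r`, `e` a bijection from `E` to `{0, …, M - 1}`.  A character of `F_p^E` which is
trivial on the lines of `M` distinct `x` is trivial (Vandermonde), so the bias is at most `M / p`.
`bias_pi`: the same for families of such points.
-/

set_option autoImplicit false

namespace Pool.Agent.H97.CM

open Finset

section bias

variable {p : ℕ} [Fact p.Prime] {E : Type} [Fintype E] {M : ℕ}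

/-- the points of the moment curve and their multiples -/
def sg (e : E ≃ Fin M) (s : ZMod p × ZMod p) : E → ZMod p := fun r => s.2 * s.1 ^ (e r : ℕ)

/-- the line of `x` -/
def ln (e : E ≃ Fin M) (x : ZMod p) : ZMod p →+ (E → ZMod p) where
  toFun y := sg e (x, y)
  map_zero' := by
    funext r
    simp [sg]
  map_add' y y' := by
    funext r
    simp [sg, add_mul]

theorem bias_van (e : E ≃ Fin M) (χ : AddChar (E → ZMod p) ℂ) (v : Fin M → ZMod p)
    (hv : Function.Injective v) (h : ∀ i y, χ (sg e (v i, y)) = 1) : χ = 0 := by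
  classical
  rw [AddChar.eq_zero_iff]
  intro z
  set A : Matrix (Fin M) (Fin M) (ZMod p) := Matrix.vandermonde v with hA
  have hdet : A.det ≠ 0 := Matrix.det_vandermonde_ne_zero_iff.2 hv
  have hu : IsUnit A.det := isUnit_iff_ne_zero.2 hdet
  set z' : Fin M → ZMod p := fun i => z (e.symm i) with hz'
  set y : Fin M → ZMod p := Matrix.vecMul z' A⁻¹ with hy
  have h1 : Matrix.vecMul y A = z' := by
    rw [hy, Matrix.vecMul_vecMul, Matrix.nonsing_inv_mul A hu, Matrix.vecMul_one]
  have h2 : z = ∑ i, sg e (v i, y i) := by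
    funext r
    have h3 := congrFun h1 (e r)
    rw [Finset.sum_apply]
    have h4 : z' (e r) = z r := by simp [hz']
    rw [← h4, ← h3]
    simp only [Matrix.vecMul, dotProduct, hA, Matrix.vandermonde_apply, sg]
  rw [h2]
  have h5 : χ (∑ i, sg e (v i, y i)) = ∏ i, χ (sg e (v i, y i)) := by
    induction (univ : Finset (Fin M)) using Finset.induction_on with
    | empty => simp
    | insert a s ha ih => rw [Finset.sum_insert ha, Finset.prod_insert ha, AddChar.map_add_eq_mul, ih]
  rw [h5]
  exact Finset.prod_eq_one fun i _ => h i (y i)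

theorem bias_one (e : E ≃ Fin M) (χ : AddChar (E → ZMod p) ℂ) (hχ : χ ≠ 0) :
    ‖(∑ s : ZMod p × ZMod p, χ (sg e s)) / Fintype.card (ZMod p × ZMod p)‖ ≤ (M : ℝ) / p := by
  classical
  have hp0 : (0 : ℝ) < p := by exact_mod_cast (Fact.out : p.Prime).pos
  have hp0' : (p : ℂ) ≠ 0 := by exact_mod_cast hp0.ne'
  set T : Finset (ZMod p) := univ.filter (fun x => χ.compAddMonoidHom (ln e x) = 0) with hT
  have hcard : T.card < M := by
    by_contra hcon
    push Not at hcon
    have hne : Nonempty (Fin M ↪ T) :=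
      Function.Embedding.nonempty_of_card_le (by simpa using hcon)
    obtain ⟨w⟩ := hne
    refine hχ (bias_van e χ (fun i => (w i : ZMod p)) (fun i j hij => w.injective (Subtype.ext hij))
      fun i y => ?_)
    have h1 := (Finset.mem_filter.1 (w i).2).2
    have h2 := (AddChar.eq_zero_iff.1 h1) y
    exact h2
  have h1 : ∑ s : ZMod p × ZMod p, χ (sg e s) = p * T.card := by
    rw [Fintype.sum_prod_type]
    have h2 : ∀ x : ZMod p, ∑ y : ZMod p, χ (sg e (x, y)) =
        if x ∈ T then (p : ℂ) else 0 := by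
      intro x
      have h3 := AddChar.sum_eq_ite (χ.compAddMonoidHom (ln e x))
      have h4 : ∑ y : ZMod p, χ (sg e (x, y)) = ∑ y : ZMod p, χ.compAddMonoidHom (ln e x) y := rfl
      rw [h4, h3, ZMod.card]
      simp [hT]
    rw [Finset.sum_congr rfl (fun x _ => h2 x), Finset.sum_ite_mem, Finset.univ_inter,
      Finset.sum_const, nsmul_eq_mul]
    ring
  have h5 : (Fintype.card (ZMod p × ZMod p) : ℂ) = p * p := by
    rw [Fintype.card_prod, ZMod.card]
    push_cast
    ring
  rw [h1, h5, mul_div_mul_left _ _ hp0']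
  rw [norm_div, Complex.norm_natCast, Complex.norm_natCast]
  gcongr

end bias

section pi

variable {k : ℕ} {G S : Type} [Fintype G] [AddCommGroup G] [Fintype S] [Nonempty S]

theorem bias_pi (τ : S → G) (ε : ℝ) (hε : 0 ≤ ε)
    (hb : ∀ χ : AddChar G ℂ, χ ≠ 0 → ‖(∑ s, χ (τ s)) / Fintype.card S‖ ≤ ε)
    (ψ : AddChar (Fin k → G) ℂ) (hψ : ψ ≠ 0) :
    ‖(∑ s : Fin k → S, ψ (fun i => τ (s i))) / Fintype.card (Fin k → S)‖ ≤ ε := by
  classical
  set ψc : Fin k → AddChar G ℂ := fun c =>
    ψ.compAddMonoidHom (AddMonoidHom.single (fun _ : Fin k => G) c) with hψc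
  have hprod : ∀ z : Fin k → G, ψ z = ∏ c, ψc c (z c) := by
    intro z
    have h1 : z = ∑ c, (Pi.single c (z c) : Fin k → G) := (Finset.univ_sum_single z).symm
    have h2 : ∀ s : Finset (Fin k), ψ (∑ c ∈ s, (Pi.single c (z c) : Fin k → G)) =
        ∏ c ∈ s, ψ (Pi.single c (z c)) := by
      intro s
      induction s using Finset.induction_on with
      | empty => simp
      | insert a s ha ih =>
        rw [Finset.sum_insert ha, Finset.prod_insert ha, AddChar.map_add_eq_mul, ih]
    conv_lhs => rw [h1]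
    rw [h2]
    rfl
  obtain ⟨c₀, hc₀⟩ : ∃ c, ψc c ≠ 0 := by
    by_contra hcon
    push Not at hcon
    refine hψ ((AddChar.eq_zero_iff).2 fun z => ?_)
    rw [hprod z]
    exact Finset.prod_eq_one fun c _ => by rw [hcon c]; rfl
  have hcardS : (0 : ℝ) < Fintype.card S := by exact_mod_cast Fintype.card_pos
  have h1 : ∑ s : Fin k → S, ψ (fun i => τ (s i)) = ∏ c, ∑ s, ψc c (τ s) := by
    rw [Finset.prod_univ_sum, Fintype.piFinset_univ]
    exact Finset.sum_congr rfl fun s _ => hprod _
  have h2 : (∑ s : Fin k → S, ψ (fun i => τ (s i))) / Fintype.card (Fin k → S) =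
      ∏ c, ((∑ s, ψc c (τ s)) / Fintype.card S) := by
    rw [h1, Finset.prod_div_distrib, Finset.prod_const, Finset.card_univ, Fintype.card_pi,
      Finset.prod_const, Finset.card_univ]
    push_cast
    rfl
  rw [h2, norm_prod, ← Finset.mul_prod_erase univ _ (Finset.mem_univ c₀)]
  have h3 : ∏ c ∈ univ.erase c₀, ‖(∑ s, ψc c (τ s)) / (Fintype.card S : ℂ)‖ ≤ 1 := by
    refine Finset.prod_le_one (fun _ _ => norm_nonneg _) fun c _ => ?_
    rw [norm_div, Complex.norm_natCast, div_le_one hcardS]
    refine (norm_sum_le _ _).trans ?_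
    simp [AddChar.norm_apply]
  calc _ ≤ ε * 1 := mul_le_mul (hb _ hc₀) h3 (Finset.prod_nonneg fun _ _ => norm_nonneg _) hε
    _ = ε := mul_one ε

end pi

end Pool.Agent.H97.CM
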