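import Pool.Agent.H97.CM.Sys

/-!
# Project CM: the cross lemma

`slot_indep`: under `PP (B ∪ C)`, given the blocks of `B`, the slots `z c a`, `c ∈ C`, are independent and
uniform.  `cross`: `|av (PP (R ∪ R') g g')|² ≤ ε² av (PP R g²) av (PP R' g'²)` if `a ∈ R \ R'` and `g` is
orthogonal to the functions on `R \ a`.
-/

set_option autoImplicit false

namespace Pool.Agent.H97.CM

open Finset
open Pool.Agent.H97.CL

section gen

theorem av_eval {k : ℕ} {G : Type} [Fintype G] [Nonempty G] (a : Fin k) (f : G → ℝ) :
    av (fun t : Fin k → G => f (t a)) = av f := by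
  rw [← av_update a (fun t : Fin k → G => f (t a))]
  simp only [Function.update_self]
  exact av_const _

theorem av_zero_iff {Ω : Type} [Fintype Ω] {f : Ω → ℝ} (h0 : ∀ x, 0 ≤ f x) (h : av f = 0) (x : Ω) :
    f x = 0 := by
  have hc : (Fintype.card Ω : ℝ) ≠ 0 := by
    have : Nonempty Ω := ⟨x⟩
    exact_mod_cast Fintype.card_ne_zero
  have h1 : ∑ y, f y = 0 := by
    unfold av at h
    rcases div_eq_zero_iff.1 h with h | h
    · exact h
    · exact absurd h hc
  exact (sum_eq_zero_iff_of_nonneg fun y _ => h0 y).1 h1 x (mem_univ x)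

/-- weighted Cauchy-Schwarz -/
theorem wcs {Ω : Type} [Fintype Ω] (P f g : Ω → ℝ) (hP : ∀ x, 0 ≤ P x) :
    (av (fun x => P x * (f x * g x))) ^ 2 ≤
      av (fun x => P x * f x ^ 2) * av (fun x => P x * g x ^ 2) := by
  have h1 := av_mul_sq_le (fun x => Real.sqrt (P x) * f x) (fun x => Real.sqrt (P x) * g x)
  have e1 : ∀ x, Real.sqrt (P x) * f x * (Real.sqrt (P x) * g x) = P x * (f x * g x) := by
    intro x
    nth_rewrite 3 [← Real.mul_self_sqrt (hP x)]
    ring
  have e2 : ∀ u : Ω → ℝ, ∀ x, (Real.sqrt (P x) * u x) ^ 2 = P x * u x ^ 2 := by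
    intro u x
    rw [mul_pow, Real.sq_sqrt (hP x)]
  rw [av_congr e1, av_congr (e2 f), av_congr (e2 g)] at h1
  exact h1

end gen

variable {k h : ℕ} {G : Type} [Fintype G] [AddCommGroup G]

theorem slot_indep (S : Sys k h G) (a : Fin k) (B C : Finset (Fin k)) (haB : a ∉ B)
    (haC : a ∉ C) (hd : Disjoint B C) (hc : (B ∪ C).card + 2 ≤ h)
    (H : (Fin k → Fin k → G) → (Fin k → G) → ℝ) (hHB : ∀ w, DepOn B (fun z => H z w))
    (hHC : ∀ z, DepOn C (H z)) :
    av (fun z => PP S (B ∪ C) z * H z (fun c => z c a)) =
      av (fun z => PP S B z * av (H z)) := by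
  classical
  induction C using Finset.induction_on generalizing H with
  | empty =>
    refine av_congr fun z => ?_
    rw [union_empty]
    congr 1
    have h1 : ∀ w, H z w = H z (fun c => z c a) := fun w => hHC z _ _ (by simp)
    rw [av_congr h1, av_const]
  | insert c C hcC ih =>
    rw [disjoint_insert_right] at hd
    have hcA : c ∉ B ∪ C := by simp [hd.1, hcC]
    have haA : a ∉ B ∪ C := by
      simp only [mem_union, not_or]
      exact ⟨haB, fun h => haC (mem_insert_of_mem h)⟩
    have hca : c ≠ a := fun h => haC (h ▸ mem_insert_self c C)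
    rw [union_insert, card_insert_of_notMem hcA] at hc
    set H' : (Fin k → Fin k → G) → (Fin k → G) → ℝ := fun z w =>
      av (fun x : G => H z (Function.update w c x)) with hH'
    have h1 := ih (fun h => haC (mem_insert_of_mem h)) hd.2 (by omega) H'
      (fun w x y hxy => by
        simp only [hH']
        exact av_congr fun v => hHB (Function.update w c v) x y hxy)
      (fun z x y hxy => by
        simp only [hH']
        refine av_congr fun v => hHC z _ _ fun i hi => ?_
        by_cases hic : i = c
        · subst hic
          simp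
        · rw [Function.update_of_ne hic, Function.update_of_ne hic]
          exact hxy i (mem_of_mem_insert_of_ne hi hic))
    have h2 : ∀ z, av (H' z) = av (H z) := fun z => av_update c (H z)
    rw [← av_congr (fun z => by rw [h2 z] : ∀ z, PP S B z * av (H' z) = PP S B z * av (H z)), ← h1,
      union_insert,
      ← av_update c (fun z : Fin k → Fin k → G => PP S (insert c (B ∪ C)) z * H z (fun i => z i a))]
    refine av_congr fun z => ?_
    have h3 : ∀ t : Fin k → G, PP S (insert c (B ∪ C)) (Function.update z c t) *
        H (Function.update z c t) (fun i => Function.update z c t i a) =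
        PP S (B ∪ C) z * (ext S c (B ∪ C) t z *
          H z (Function.update (fun i => z i a) c (t a))) := by
      intro t
      rw [PP_insert S c (B ∪ C) hcA, dep_update (PP_dep S (B ∪ C)) c hcA, Function.update_self,
        ext_update S c (B ∪ C) hcA]
      have h4 : (fun i => Function.update z c t i a) =
          Function.update (fun i => z i a) c (t a) := by
        funext i
        by_cases hi : i = c
        · subst hi
          simp
        · simp [Function.update_of_ne hi]
      rw [h4, show H (Function.update z c t) (Function.update (fun i => z i a) c (t a)) =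
        H z (Function.update (fun i => z i a) c (t a)) from
        dep_update (hHB (Function.update (fun i => z i a) c (t a))) c hd.1 z t]
      ring
    rw [av_congr h3, av_mul_left]
    congr 1
    rw [av_ext S c (B ∪ C) {a} hcA (by simpa using hca) (by simpa using haA)
      (by rw [union_comm, ← insert_eq, card_insert_of_notMem haA]; omega) z
      (fun t => H z (Function.update (fun i => z i a) c (t a)))
      (fun x y hxy => by
        have := hxy a (mem_singleton_self a)
        simp only [this])]
    exact av_eval a (fun x => H z (Function.update (fun i => z i a) c x))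

/-- small bias of the allowed sums -/
def KB (S : Sys k h G) (ε : ℝ) : Prop :=
  ∀ (C : Finset (Fin k)) (φ : (Fin k → G) → ℝ), DepOn C φ →
    av (fun t : Fin k → G => (av (fun w : Fin k → G => (∏ c ∈ C, S.κ (t c + w c)) * φ w) -
      av φ) ^ 2) ≤ ε ^ 2 * av (fun w => φ w ^ 2)

/-- the conditional bound -/
theorem cond_bound (S : Sys k h G) (ε : ℝ) (hK : KB S ε) (a : Fin k) (B C : Finset (Fin k))
    (haB : a ∉ B) (haC : a ∉ C) (hd : Disjoint B C) (hc : (B ∪ C).card + 2 ≤ h)
    (z : Fin k → Fin k → G) (g : (Fin k → G) → ℝ) (hg : av (fun t => ext S a B t z * g t) = 0) :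
    av (fun w : Fin k → G =>
      (av (fun t : Fin k → G => ext S a B t z * g t * ∏ c ∈ C, S.κ (t c + w c))) ^ 2) ≤
      ε ^ 2 * av (fun t => ext S a B t z * g t ^ 2) := by
  classical
  set φ : (Fin k → G) → ℝ := fun w =>
    av (fun t : Fin k → G => ext S a B t z * g t * ∏ c ∈ C, S.κ (t c + w c)) with hφ
  have hφC : DepOn C φ := by
    intro x y hxy
    simp only [hφ]
    refine av_congr fun t => ?_
    congr 1
    exact prod_congr rfl fun c hc => by rw [hxy c hc]
  set Kf : (Fin k → G) → ℝ := fun t => av (fun w : Fin k → G => (∏ c ∈ C, S.κ (t c + w c)) * φ w)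
    with hKf
  have hKC : DepOn C (fun t => (Kf t - av φ) ^ 2) := by
    intro x y hxy
    have : Kf x = Kf y := by
      simp only [hKf]
      refine av_congr fun w => ?_
      congr 1
      exact prod_congr rfl fun c hc => by rw [hxy c hc]
    simp only [this]
  set Y : ℝ := av (fun w => φ w ^ 2) with hY
  set X : ℝ := av (fun t => ext S a B t z * g t ^ 2) with hX
  have hY0 : 0 ≤ Y := av_nonneg fun _ => sq_nonneg _
  have hX0 : 0 ≤ X := av_nonneg fun t => mul_nonneg (ext_nonneg S a B t z) (sq_nonneg _)
  have h1 : Y = av (fun t => ext S a B t z * (g t * (Kf t - av φ))) := by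
    have e1 : Y = av (fun t => ext S a B t z * g t * Kf t) := by
      have e2 : ∀ w, φ w ^ 2 = av (fun t : Fin k → G =>
          ext S a B t z * g t * ((∏ c ∈ C, S.κ (t c + w c)) * φ w)) := by
        intro w
        rw [sq]
        conv_lhs => rw [hφ]
        simp only []
        rw [← av_mul_right]
        exact av_congr fun t => by ring
      rw [hY, av_congr e2, av_comm]
      refine av_congr fun t => ?_
      rw [av_mul_left]
    have e3 : av (fun t => ext S a B t z * (g t * (Kf t - av φ))) =
        av (fun t => ext S a B t z * g t * Kf t) - av φ * av (fun t => ext S a B t z * g t) := by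
      rw [← av_mul_left, ← av_sub]
      exact av_congr fun t => by ring
    rw [e3, hg, mul_zero, sub_zero, e1]
  have h2 : Y ^ 2 ≤ X * (ε ^ 2 * Y) := by
    have e1 := wcs (fun t => ext S a B t z) g (fun t => Kf t - av φ) (fun t => ext_nonneg S a B t z)
    rw [← h1] at e1
    refine e1.trans (mul_le_mul_of_nonneg_left ?_ hX0)
    rw [av_ext S a B C haB haC hd hc z (fun t => (Kf t - av φ) ^ 2) hKC]
    exact hK C φ hφC
  rcases hY0.eq_or_lt with h3 | h3
  · rw [← h3]
    exact mul_nonneg (sq_nonneg _) hX0
  · have h4 : Y * Y ≤ (ε ^ 2 * X) * Y := by nlinarith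
    exact le_of_mul_le_mul_right h4 h3

/-- `g` is orthogonal to the functions on `R \ a` -/
def OrthAt (S : Sys k h G) (R : Finset (Fin k)) (a : Fin k) (g : (Fin k → Fin k → G) → ℝ) : Prop :=
  ∀ u : (Fin k → Fin k → G) → ℝ, DepOn (R.erase a) u → av (fun z => PP S R z * (g z * u z)) = 0

theorem PP_split (S : Sys k h G) (a : Fin k) (A : Finset (Fin k)) (ha : a ∉ A)
    (F : (Fin k → Fin k → G) → ℝ) :
    av (fun z => PP S (insert a A) z * F z) =
      av (fun z => PP S A z * av (fun t => ext S a A t z * F (Function.update z a t))) := by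
  rw [← av_update a (fun z : Fin k → Fin k → G => PP S (insert a A) z * F z)]
  refine av_congr fun z => ?_
  rw [← av_mul_left]
  refine av_congr fun t => ?_
  rw [PP_insert S a A ha, dep_update (PP_dep S A) a ha, Function.update_self, ext_update S a A ha]
  ring

theorem cross (S : Sys k h G) (ε : ℝ) (hK : KB S ε) (R R' : Finset (Fin k))
    (hc : (R ∪ R').card < h) (a : Fin k) (haR : a ∈ R) (haR' : a ∉ R')
    (g g' : (Fin k → Fin k → G) → ℝ) (hg : DepOn R g) (hg' : DepOn R' g') (ho : OrthAt S R a g) :
    (av (fun z => PP S (R ∪ R') z * (g z * g' z))) ^ 2 ≤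
      ε ^ 2 * av (fun z => PP S R z * g z ^ 2) * av (fun z => PP S R' z * g' z ^ 2) := by
  classical
  set B : Finset (Fin k) := R.erase a with hB
  set C : Finset (Fin k) := R' \ R with hC
  have haB : a ∉ B := notMem_erase a R
  have haC : a ∉ C := fun h => haR' (mem_sdiff.1 h).1
  have haA : a ∉ B ∪ C := by simp [haB, haC]
  have hd : Disjoint B C := by
    rw [disjoint_left]
    intro x hx hx'
    exact (mem_sdiff.1 hx').2 (mem_of_mem_erase hx)
  have hRB : insert a B = R := insert_erase haR
  have hU : R ∪ R' = insert a (B ∪ C) := by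
    rw [← insert_union, hRB, hC, union_sdiff_self_eq_union]
  have hR'A : R' ⊆ B ∪ C := by
    intro x hx
    have hxa : x ≠ a := fun h => haR' (h ▸ hx)
    by_cases hxR : x ∈ R
    · exact mem_union_left _ (mem_erase.2 ⟨hxa, hxR⟩)
    · exact mem_union_right _ (mem_sdiff.2 ⟨hx, hxR⟩)
  have hcA : (B ∪ C).card + 2 ≤ h := by
    rw [hU, card_insert_of_notMem haA] at hc
    omega
  set m : (Fin k → Fin k → G) → (Fin k → G) → ℝ := fun z w =>
    av (fun t : Fin k → G => ext S a B t z * g (Function.update z a t) *
      ∏ c ∈ C, S.κ (t c + w c)) with hm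
  have hgu : ∀ t, DepOn B (fun z => g (Function.update z a t)) := by
    intro t x y hxy
    refine hg _ _ fun i hi => ?_
    by_cases hia : i = a
    · subst hia
      simp
    · rw [Function.update_of_ne hia, Function.update_of_ne hia]
      exact hxy i (mem_erase.2 ⟨hia, hi⟩)
  have hext : ∀ t, DepOn B (fun z => ext S a B t z) := by
    intro t x y hxy
    simp only [ext]
    congr 1
    exact prod_congr rfl fun b hb => by rw [hxy b hb]
  have hmB : ∀ w, DepOn B (fun z => m z w) := by
    intro w x y hxy
    simp only [hm]
    refine av_congr fun t => ?_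
    have e1 := hgu t x y hxy
    have e2 := hext t x y hxy
    simp only [] at e1 e2
    rw [e1, e2]
  have hmC : ∀ z, DepOn C (m z) := by
    intro z x y hxy
    simp only [hm]
    refine av_congr fun t => ?_
    congr 1
    exact prod_congr rfl fun c hc => by rw [hxy c hc]
  -- step 1
  have h1 : av (fun z => PP S (R ∪ R') z * (g z * g' z)) =
      av (fun z => PP S (B ∪ C) z * (g' z * m z (fun c => z c a))) := by
    rw [hU, PP_split S a (B ∪ C) haA]
    refine av_congr fun z => ?_
    congr 1
    simp only [hm]
    rw [← av_mul_left]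
    refine av_congr fun t => ?_
    rw [show g' (Function.update z a t) = g' z from dep_update hg' a haR' z t]
    have e1 : ext S a (B ∪ C) t z = ext S a B t z * ∏ c ∈ C, S.κ (t c + z c a) := by
      unfold ext
      rw [prod_union hd]
      ring
    rw [e1]
    ring
  -- step 2
  have h2 := wcs (PP S (B ∪ C)) g' (fun z => m z (fun c => z c a)) (PP_nonneg S (B ∪ C))
  rw [← h1] at h2
  have hlt : (B ∪ C).card < h := by omega
  rw [PP_marg S (B ∪ C) R' hlt hR'A (fun z => g' z ^ 2)
    (fun x y hxy => by simp only [hg' x y hxy])] at h2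
  have h3 : av (fun z => PP S (B ∪ C) z * (m z (fun c => z c a)) ^ 2) =
      av (fun z => PP S B z * av (fun w => m z w ^ 2)) :=
    slot_indep S a B C haB haC hd hcA (fun z w => m z w ^ 2)
      (fun w x y hxy => by
        have e1 := hmB w x y hxy
        simp only [] at e1 ⊢
        rw [e1])
      (fun z x y hxy => by
        have e1 := hmC z x y hxy
        simp only [] at e1 ⊢
        rw [e1])
  -- purity
  set m0 : (Fin k → Fin k → G) → ℝ := fun z =>
    av (fun t => ext S a B t z * g (Function.update z a t)) with hm0
  have hm0B : DepOn B m0 := by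
    intro x y hxy
    simp only [hm0]
    refine av_congr fun t => ?_
    have e1 := hgu t x y hxy
    have e2 := hext t x y hxy
    simp only [] at e1 e2
    rw [e1, e2]
  have hpure : ∀ z, PP S B z * m0 z ^ 2 = 0 := by
    have e1 := ho m0 hm0B
    rw [← hRB, PP_split S a B haB] at e1
    have e2 : ∀ z, PP S B z * av (fun t => ext S a B t z *
        (g (Function.update z a t) * m0 (Function.update z a t))) = PP S B z * m0 z ^ 2 := by
      intro z
      congr 1
      have e3 : ∀ t, ext S a B t z * (g (Function.update z a t) * m0 (Function.update z a t)) =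
          ext S a B t z * g (Function.update z a t) * m0 z := by
        intro t
        rw [dep_update hm0B a haB z t]
        ring
      rw [av_congr e3, av_mul_right, sq]
    rw [av_congr e2] at e1
    exact av_zero_iff (fun z => mul_nonneg (PP_nonneg S B z) (sq_nonneg _)) e1
  have h4 : av (fun z => PP S B z * av (fun w => m z w ^ 2)) ≤
      ε ^ 2 * av (fun z => PP S R z * g z ^ 2) := by
    have e1 : av (fun z => PP S R z * g z ^ 2) =
        av (fun z => PP S B z * av (fun t => ext S a B t z * g (Function.update z a t) ^ 2)) := by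
      rw [← hRB, PP_split S a B haB]
    rw [e1, ← av_mul_left]
    refine av_mono fun z => ?_
    rcases (PP_nonneg S B z).eq_or_lt with h5 | h5
    · rw [← h5]
      simp
    · have h6 : m0 z = 0 := by
        rcases mul_eq_zero.1 (hpure z) with h7 | h7
        · exact absurd h7 h5.ne'
        · exact pow_eq_zero_iff (two_ne_zero) |>.1 h7
      have h8 := cond_bound S ε hK a B C haB haC hd hcA z (fun t => g (Function.update z a t)) h6
      have h9 := mul_le_mul_of_nonneg_left h8 h5.le
      calc _ ≤ _ := h9
        _ = _ := by ring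
  rw [h3] at h2
  have h5 : 0 ≤ av (fun z => PP S R' z * g' z ^ 2) :=
    av_nonneg fun z => mul_nonneg (PP_nonneg S R' z) (sq_nonneg _)
  calc _ ≤ _ := h2
    _ ≤ av (fun z => PP S R' z * g' z ^ 2) * (ε ^ 2 * av (fun z => PP S R z * g z ^ 2)) :=
      mul_le_mul_of_nonneg_left h4 h5
    _ = _ := by ring

end Pool.Agent.H97.CM
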