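import Pool.Agent.H97.CL.Graph

/-!
# Project CM: the graph of a labelling, for any adjacency of labels

As `Pool.Agent.H97.CL.Graph`, for an arbitrary set `V` of labels and an arbitrary symmetric adjacency
`OK i j a b` of the label `a` of the block `i` and the label `b` of the block `j`.
-/

set_option autoImplicit false

namespace Pool.Agent.H97.CM

open Finset
open Pool.Agent.H97.CL (nonEdges pt pt_inj SS graph_inj graph_lt)

variable {k N n : ℕ} {V : Type}

open Classical in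
/-- the number of pairs of non-adjacent labels -/
noncomputable def cst (OK : Fin k → Fin k → V → V → Prop) (z : Fin k → V) : ℝ :=
  ∑ p ∈ (univ : Finset (Fin k × Fin k)).filter (fun p => p.1 < p.2),
    if OK p.1 p.2 (z p.1) (z p.2) then (0 : ℝ) else 1

theorem cst_nonneg (OK : Fin k → Fin k → V → V → Prop) (z : Fin k → V) : 0 ≤ cst OK z := by
  unfold cst
  refine Finset.sum_nonneg fun p _ => ?_
  split_ifs
  · exact le_rfl
  · exact zero_le_one

/-- the graph of a labelling -/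
def gr (OK : Fin k → Fin k → V → V → Prop) (hs : ∀ i j a b, OK i j a b → OK j i b a)
    (hn : k * N ≤ n) (x : Fin k × Fin N → V) : SimpleGraph (Fin n) where
  Adj p q := ∃ c d : Fin k × Fin N, p = pt hn c ∧ q = pt hn d ∧ c.1 ≠ d.1 ∧
    OK c.1 d.1 (x c) (x d)
  symm := ⟨fun _ _ ⟨c, d, h1, h2, h3, h4⟩ => ⟨d, c, h2, h1, h3.symm, hs _ _ _ _ h4⟩⟩
  loopless := ⟨fun _ ⟨_, _, h1, h2, h3, _⟩ => h3 (by rw [pt_inj hn (h1.symm.trans h2)])⟩

theorem gr_adj (OK : Fin k → Fin k → V → V → Prop) (hs : ∀ i j a b, OK i j a b → OK j i b a)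
    (hn : k * N ≤ n) (x : Fin k × Fin N → V) (c d : Fin k × Fin N) :
    (gr OK hs hn x).Adj (pt hn c) (pt hn d) ↔ c.1 ≠ d.1 ∧ OK c.1 d.1 (x c) (x d) := by
  constructor
  · rintro ⟨c', d', h1, h2, h3, h4⟩
    obtain rfl := pt_inj hn h1
    obtain rfl := pt_inj hn h2
    exact ⟨h3, h4⟩
  · rintro ⟨h3, h4⟩
    exact ⟨c, d, rfl, rfl, h3, h4⟩

theorem gr_free (OK : Fin k → Fin k → V → V → Prop) (hs : ∀ i j a b, OK i j a b → OK j i b a)
    (h : ℕ) (h2 : 2 ≤ h)
    (hno : ∀ J : Finset (Fin k), J.card = h → ∀ z : Fin k → V,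
      ¬ ∀ i ∈ J, ∀ j ∈ J, i ≠ j → OK i j (z i) (z j))
    (hn : k * N ≤ n) (x : Fin k × Fin N → V) : (gr OK hs hn x).CliqueFree h := by
  classical
  intro T hT
  have hcard : T.card = h := hT.card_eq
  have hadj : ∀ p ∈ T, ∀ q ∈ T, p ≠ q → (gr OK hs hn x).Adj p q := fun p hp q hq hpq =>
    hT.isClique hp hq hpq
  have hex : ∀ p : Fin n, ∃ c : Fin k × Fin N, p ∈ T → p = pt hn c := by
    intro p
    by_cases hp : p ∈ T
    · obtain ⟨q, hq, hqp⟩ := Finset.exists_mem_ne (s := T) (by omega) p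
      obtain ⟨c, d, h1, -⟩ := hadj p hp q hq hqp.symm
      exact ⟨c, fun _ => h1⟩
    · have hT0 : T.Nonempty := Finset.card_pos.1 (by omega)
      obtain ⟨p', hp'⟩ := hT0
      obtain ⟨q, hq, hqp⟩ := Finset.exists_mem_ne (s := T) (by omega) p'
      obtain ⟨c, d, h1, -⟩ := hadj p' hp' q hq hqp.symm
      exact ⟨c, fun h' => absurd h' hp⟩
  choose c hc using hex
  have hpair : ∀ p ∈ T, ∀ q ∈ T, p ≠ q → (c p).1 ≠ (c q).1 ∧
      OK (c p).1 (c q).1 (x (c p)) (x (c q)) := by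
    intro p hp q hq hpq
    have h1 := hadj p hp q hq hpq
    rw [hc p hp, hc q hq] at h1
    exact (gr_adj OK hs hn x _ _).1 h1
  have hinj : Set.InjOn (fun p => (c p).1) (T : Set (Fin n)) := by
    intro p hp q hq hpq
    by_contra hne
    exact (hpair p hp q hq hne).1 hpq
  have hJ : (T.image (fun p => (c p).1)).card = h := by
    rw [Finset.card_image_of_injOn hinj, hcard]
  have hsel : ∀ i : Fin k, ∃ p : Fin n, i ∈ T.image (fun p => (c p).1) → p ∈ T ∧ (c p).1 = i := by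
    intro i
    by_cases hi : i ∈ T.image (fun p => (c p).1)
    · obtain ⟨p, hp, hpi⟩ := Finset.mem_image.1 hi
      exact ⟨p, fun _ => ⟨hp, hpi⟩⟩
    · have hT0 : T.Nonempty := Finset.card_pos.1 (by omega)
      obtain ⟨p', hp'⟩ := hT0
      exact ⟨p', fun h' => absurd h' hi⟩
  choose p hp using hsel
  refine hno (T.image (fun p => (c p).1)) hJ (fun i => x (c (p i))) ?_
  intro i hi j hj hij
  obtain ⟨h3, h4⟩ := hp i hi
  obtain ⟨h5, h6⟩ := hp j hj
  have hne : p i ≠ p j := by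
    intro h'
    apply hij
    rw [← h4, ← h6, h']
  have h7 := (hpair (p i) h3 (p j) h5 hne).2
  rw [h4, h6] at h7
  exact h7

theorem nonEdges_gr (OK : Fin k → Fin k → V → V → Prop)
    (hs : ∀ i j a b, OK i j a b → OK j i b a) (hn : k * N ≤ n) (x : Fin k × Fin N → V)
    (u : Fin k → Fin N) :
    (nonEdges (gr OK hs hn x) (SS hn u) : ℝ) = cst OK (fun i => x (i, u i)) := by
  classical
  have h1 : cst OK (fun i => x (i, u i)) =
      (((univ : Finset (Fin k × Fin k)).filter (fun p => p.1 < p.2 ∧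
        ¬ OK p.1 p.2 (x (p.1, u p.1)) (x (p.2, u p.2)))).card : ℝ) := by
    unfold cst
    rw [← Finset.filter_filter, Finset.card_filter]
    push_cast
    refine Finset.sum_congr rfl fun p _ => ?_
    by_cases hp : OK p.1 p.2 (x (p.1, u p.1)) (x (p.2, u p.2))
    · rw [if_pos hp, if_neg (not_not.2 hp)]
    · rw [if_neg hp, if_pos hp]
  have hinj : Function.Injective (fun p : Fin k × Fin k =>
      (pt hn (p.1, u p.1), pt hn (p.2, u p.2))) := by
    rintro ⟨i, j⟩ ⟨i', j'⟩ hp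
    have e1 := (Prod.ext_iff.1 hp).1
    have e2 := (Prod.ext_iff.1 hp).2
    exact Prod.ext (graph_inj hn u e1) (graph_inj hn u e2)
  have h2 : ((SS hn u ×ˢ SS hn u).filter (fun p => p.1 < p.2 ∧ ¬ (gr OK hs hn x).Adj p.1 p.2)) =
      ((univ : Finset (Fin k × Fin k)).filter (fun p => p.1 < p.2 ∧
        ¬ OK p.1 p.2 (x (p.1, u p.1)) (x (p.2, u p.2)))).image
        (fun p : Fin k × Fin k => (pt hn (p.1, u p.1), pt hn (p.2, u p.2))) := by
    ext ⟨a, b⟩
    rw [Finset.mem_filter, Finset.mem_product, Finset.mem_image]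
    constructor
    · rintro ⟨⟨ha, hb⟩, hlt, hna⟩
      obtain ⟨i, -, rfl⟩ := Finset.mem_image.1 ha
      obtain ⟨j, -, rfl⟩ := Finset.mem_image.1 hb
      have hij : i < j := (graph_lt hn u i j).1 hlt
      refine ⟨(i, j), Finset.mem_filter.2 ⟨Finset.mem_univ _, hij, fun hok => hna ?_⟩, rfl⟩
      exact (gr_adj OK hs hn x _ _).2 ⟨hij.ne, hok⟩
    · rintro ⟨⟨i, j⟩, hij, heq⟩
      obtain ⟨-, hlt, hok⟩ := Finset.mem_filter.1 hij
      have e1 := (Prod.ext_iff.1 heq).1
      have e2 := (Prod.ext_iff.1 heq).2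
      change pt hn (i, u i) = a at e1
      change pt hn (j, u j) = b at e2
      rw [← e1, ← e2]
      refine ⟨⟨Finset.mem_image.2 ⟨i, Finset.mem_univ _, rfl⟩,
        Finset.mem_image.2 ⟨j, Finset.mem_univ _, rfl⟩⟩, (graph_lt hn u i j).2 hlt, fun hadj => ?_⟩
      exact hok ((gr_adj OK hs hn x _ _).1 hadj).2
  rw [h1]
  unfold nonEdges
  rw [← Finset.card_image_of_injective _ hinj, ← h2]

end Pool.Agent.H97.CM
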