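import Pool.Agent.H97.CM.Pure

/-!
# Project CM: positivity of the glued density in all degrees below `h / 2`

`q = ∑ g C` with pure `g C`, `#C ≤ D`, `2 D < h`: the diagonal terms of `av (WW q²)` are the squares of the
norms, the others are at most `ε` times the products of the norms (`cross`), and there are at most `2^k` sets.
-/

set_option autoImplicit false

namespace Pool.Agent.H97.CM

open Finset
open Pool.Agent.H97.CL

variable {k h : ℕ} {G : Type} [Fintype G] [AddCommGroup G]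

/-- the norms -/
noncomputable def nn (S : Sys k h G) (C : Finset (Fin k)) (g : (Fin k → Fin k → G) → ℝ) : ℝ :=
  av (fun z => PP S C z * g z ^ 2)

theorem nn_nonneg (S : Sys k h G) (C : Finset (Fin k)) (g : (Fin k → Fin k → G) → ℝ) :
    0 ≤ nn S C g := av_nonneg fun z => mul_nonneg (PP_nonneg S C z) (sq_nonneg _)

theorem cross_abs (S : Sys k h G) (ε : ℝ) (hε : 0 ≤ ε) (hK : KB S ε) (R R' : Finset (Fin k))
    (hc : (R ∪ R').card < h) (hne : R ≠ R') (g g' : (Fin k → Fin k → G) → ℝ) (hg : DepOn R g)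
    (hg' : DepOn R' g') (ho : ∀ a ∈ R, OrthAt S R a g) (ho' : ∀ a ∈ R', OrthAt S R' a g') :
    -(ε * (Real.sqrt (nn S R g) * Real.sqrt (nn S R' g'))) ≤
      av (fun z => PP S (R ∪ R') z * (g z * g' z)) := by
  have key : (av (fun z => PP S (R ∪ R') z * (g z * g' z))) ^ 2 ≤
      ε ^ 2 * nn S R g * nn S R' g' := by
    by_cases h1 : ∃ a ∈ R, a ∉ R'
    · obtain ⟨a, haR, haR'⟩ := h1
      exact cross S ε hK R R' hc a haR haR' g g' hg hg' (ho a haR)
    · push Not at h1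
      have h2 : ∃ a ∈ R', a ∉ R := by
        by_contra hcon
        push Not at hcon
        exact hne (Subset.antisymm h1 hcon)
      obtain ⟨a, haR', haR⟩ := h2
      have h3 := cross S ε hK R' R (by rw [union_comm]; exact hc) a haR' haR g' g hg' hg (ho' a haR')
      have e1 : av (fun z => PP S (R ∪ R') z * (g z * g' z)) =
          av (fun z => PP S (R' ∪ R) z * (g' z * g z)) := by
        rw [union_comm]
        exact av_congr fun z => by ring
      rw [e1]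
      refine h3.trans (le_of_eq ?_)
      unfold nn
      ring
  have h1 : ε ^ 2 * nn S R g * nn S R' g' =
      (ε * (Real.sqrt (nn S R g) * Real.sqrt (nn S R' g'))) ^ 2 := by
    rw [mul_pow, mul_pow, Real.sq_sqrt (nn_nonneg S R g), Real.sq_sqrt (nn_nonneg S R' g')]
    ring
  rw [h1] at key
  have h2 : 0 ≤ ε * (Real.sqrt (nn S R g) * Real.sqrt (nn S R' g')) := by positivity
  exact (abs_le.1 (abs_le_of_sq_le_sq key h2)).1

theorem WW_psd (S : Sys k h G) (ε : ℝ) (hε : 0 ≤ ε) (hK : KB S ε) (hεk : ε * 2 ^ k ≤ 1) (D : ℕ)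
    (hD : 2 * D < h) (q : (Fin k → Fin k → G) → ℝ) (hq : LowDeg univ D q) :
    0 ≤ av (fun z => WW S z * q z ^ 2) := by
  classical
  obtain ⟨g, hg, hgo, hq⟩ := pure_rep S D q hq
  set 𝒟 : Finset (Finset (Fin k)) := (univ : Finset (Fin k)).powerset.filter (fun C => C.card ≤ D)
    with h𝒟
  have hcard : (𝒟.card : ℝ) ≤ 2 ^ k := by
    have h1 : 𝒟.card ≤ (univ : Finset (Fin k)).powerset.card := card_le_card (filter_subset _ _)
    rw [card_powerset, card_univ, Fintype.card_fin] at h1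
    exact_mod_cast h1
  have hun : ∀ C ∈ 𝒟, ∀ C' ∈ 𝒟, (C ∪ C').card < h := by
    intro C hC C' hC'
    have h1 := (mem_filter.1 hC).2
    have h2 := (mem_filter.1 hC').2
    have h3 := card_union_le C C'
    omega
  have e1 : av (fun z => WW S z * q z ^ 2) =
      ∑ C ∈ 𝒟, ∑ C' ∈ 𝒟, av (fun z => PP S (C ∪ C') z * (g C z * g C' z)) := by
    have e2 : ∀ z, WW S z * q z ^ 2 = ∑ C ∈ 𝒟, ∑ C' ∈ 𝒟, WW S z * (g C z * g C' z) := by
      intro z
      rw [hq z, sq, sum_mul_sum, mul_sum]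
      exact sum_congr rfl fun C _ => mul_sum _ _ _
    rw [av_congr e2, av_sum]
    refine sum_congr rfl fun C hC => ?_
    rw [av_sum]
    refine sum_congr rfl fun C' hC' => ?_
    refine WW_loc S (C ∪ C') (hun C hC C' hC') (fun z => g C z * g C' z) ?_
    intro x y hxy
    simp only [hg C x y fun i hi => hxy i (mem_union_left _ hi),
      hg C' x y fun i hi => hxy i (mem_union_right _ hi)]
  set n : Finset (Fin k) → ℝ := fun C => Real.sqrt (nn S C (g C)) with hn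
  have hn0 : ∀ C, 0 ≤ n C := fun C => Real.sqrt_nonneg _
  have hn2 : ∀ C, n C ^ 2 = nn S C (g C) := fun C => Real.sq_sqrt (nn_nonneg S C (g C))
  have e3 : ∀ C ∈ 𝒟, ∀ C' ∈ 𝒟, (if C = C' then n C ^ 2 else 0) - ε * (n C * n C') ≤
      av (fun z => PP S (C ∪ C') z * (g C z * g C' z)) := by
    intro C hC C' hC'
    by_cases hCC : C = C'
    · subst hCC
      rw [if_pos rfl, hn2, union_self]
      have h1 : av (fun z => PP S C z * (g C z * g C z)) = nn S C (g C) := by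
        unfold nn
        exact av_congr fun z => by ring
      rw [h1]
      have h2 : 0 ≤ ε * (n C * n C) := mul_nonneg hε (mul_nonneg (hn0 C) (hn0 C))
      linarith
    · rw [if_neg hCC, zero_sub]
      exact cross_abs S ε hε hK C C' (hun C hC C' hC') hCC (g C) (g C') (hg C) (hg C') (hgo C)
        (hgo C')
  have e4 : ∑ C ∈ 𝒟, ∑ C' ∈ 𝒟, ((if C = C' then n C ^ 2 else 0) - ε * (n C * n C')) =
      ∑ C ∈ 𝒟, n C ^ 2 - ε * (∑ C ∈ 𝒟, n C) ^ 2 := by
    have h1 : ∀ C ∈ 𝒟, ∑ C' ∈ 𝒟, ((if C = C' then n C ^ 2 else 0) - ε * (n C * n C')) =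
        n C ^ 2 - ε * (n C * ∑ C' ∈ 𝒟, n C') := by
      intro C hC
      rw [sum_sub_distrib, sum_ite_eq, if_pos hC, ← mul_sum, ← mul_sum]
    rw [sum_congr rfl h1, sum_sub_distrib, ← mul_sum, ← sum_mul, sq (∑ C ∈ 𝒟, n C)]
  have e5 : (∑ C ∈ 𝒟, n C) ^ 2 ≤ 𝒟.card * ∑ C ∈ 𝒟, n C ^ 2 := sq_sum_le_card_mul_sum_sq
  have e6 : 0 ≤ ∑ C ∈ 𝒟, n C ^ 2 := sum_nonneg fun C _ => sq_nonneg _
  have e7 : ε * (∑ C ∈ 𝒟, n C) ^ 2 ≤ ∑ C ∈ 𝒟, n C ^ 2 := by
    calc ε * (∑ C ∈ 𝒟, n C) ^ 2 ≤ ε * (𝒟.card * ∑ C ∈ 𝒟, n C ^ 2) :=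
          mul_le_mul_of_nonneg_left e5 hε
      _ = (ε * 𝒟.card) * ∑ C ∈ 𝒟, n C ^ 2 := by ring
      _ ≤ (ε * 2 ^ k) * ∑ C ∈ 𝒟, n C ^ 2 :=
          mul_le_mul_of_nonneg_right (mul_le_mul_of_nonneg_left hcard hε) e6
      _ ≤ 1 * ∑ C ∈ 𝒟, n C ^ 2 := mul_le_mul_of_nonneg_right hεk e6
      _ = _ := one_mul _
  rw [e1]
  calc (0 : ℝ) ≤ ∑ C ∈ 𝒟, n C ^ 2 - ε * (∑ C ∈ 𝒟, n C) ^ 2 := by linarith
    _ = _ := e4.symm
    _ ≤ _ := sum_le_sum fun C hC => sum_le_sum fun C' hC' => e3 C hC C' hC'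

end Pool.Agent.H97.CM
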