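import Pool.Agent.H97.CM.Inst
import Pool.Agent.H97.CM.Psd
import Pool.Agent.H97.CM.Graph

/-!
# Project CM: the gadget with a positive signed density in all degrees `D`, `2 D < h`
-/

set_option autoImplicit false

namespace Pool.Agent.H97.CM

open Finset
open Pool.Agent.H97.CL (av av_congr av_const av_sum DepOn LowDeg)

theorem exists_gadget (h k : ℕ) (h3 : 3 ≤ h) :
    ∃ (V : Type) (_ : Fintype V) (_ : Nonempty V) (OK : Fin k → Fin k → V → V → Prop)
      (W : (Fin k → V) → ℝ), (∀ i j a b, OK i j a b → OK j i b a) ∧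
      (∀ J : Finset (Fin k), J.card = h → ∀ z : Fin k → V,
        ¬ ∀ i ∈ J, ∀ j ∈ J, i ≠ j → OK i j (z i) (z j)) ∧
      av W = 1 ∧ av (fun z => W z * cst OK z) = 0 ∧
      (∀ D : ℕ, 2 * D < h → ∀ q : (Fin k → V) → ℝ, LowDeg univ D q →
        0 ≤ av (fun z => W z * q z ^ 2)) := by
  classical
  set N : ℕ := 2 * k * k + 1 with hN
  set M : ℕ := Fintype.card (Finset (Fin k) × Fin N) with hM
  obtain ⟨p, hp, hprime⟩ := Nat.exists_infinite_primes (2 ^ k * M + 1)
  have : Fact p.Prime := ⟨hprime⟩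
  set e : Finset (Fin k) × Fin N ≃ Fin M := Fintype.equivFin _ with he
  set σ : ZMod p × ZMod p → GG k N p := fun s => sg e s with hσ
  obtain ⟨c, hc⟩ := exists_c (k := k) (N := N) (p := p) (S := ZMod p × ZMod p)
    (by rw [Fintype.card_prod, ZMod.card]) hN σ
  set γ : Fin k → Finset (Fin k) → Fin N → ZMod p := fun i J l =>
    if ∀ j ∈ J, i ≤ j then c J l else 0 with hγ
  have hp0 : (0 : ℝ) < p := by exact_mod_cast hprime.pos
  have hK : KB (sys h γ σ) ((M : ℝ) / p) :=
    kb_of_bias h γ σ ((M : ℝ) / p) (by positivity) (fun χ hχ => bias_one e χ hχ)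
  have hεk : (M : ℝ) / p * 2 ^ k ≤ 1 := by
    rw [div_mul_eq_mul_div, div_le_one hp0]
    have h1 : M * 2 ^ k ≤ p := by
      rw [mul_comm]
      omega
    exact_mod_cast h1
  set OK : Fin k → Fin k → (Fin k → GG k N p) → (Fin k → GG k N p) → Prop := fun i j a b =>
    Val h γ i a ∧ Val h γ j b ∧ ∃ s, a j + b i = σ s with hOK
  refine ⟨Fin k → GG k N p, inferInstance, inferInstance, OK, WW (sys h γ σ), ?_, ?_, ?_, ?_, ?_⟩
  · rintro i j a b ⟨h1, h2, s, hs⟩
    exact ⟨h2, h1, s, by rw [add_comm, hs]⟩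
  · intro J hJ z hz
    refine no_cl h (by omega) σ c hc J hJ z (fun i hi => ?_) (fun i hi j hj hij => (hz i hi j hj hij).2.2)
    obtain ⟨j, hj, hji⟩ := Finset.exists_mem_ne (s := J) (by omega) i
    exact (hz i hi j hj hji.symm).1
  · exact WW_one (sys h γ σ) (by omega)
  · have e1 : ∀ z : Fin k → Fin k → GG k N p, WW (sys h γ σ) z * cst OK z =
        ∑ q ∈ (univ : Finset (Fin k × Fin k)).filter (fun q => q.1 < q.2),
          WW (sys h γ σ) z * (if OK q.1 q.2 (z q.1) (z q.2) then (0 : ℝ) else 1) := by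
      intro z
      unfold cst
      rw [Finset.mul_sum]
      refine Finset.sum_congr rfl fun q _ => ?_
      by_cases hok : OK q.1 q.2 (z q.1) (z q.2)
      · rw [if_pos hok, if_pos hok]
      · rw [if_neg hok, if_neg hok]
    rw [av_congr e1, av_sum]
    refine Finset.sum_eq_zero fun q hq => ?_
    have hlt : q.1 < q.2 := (Finset.mem_filter.1 hq).2
    have hcard : ({q.1, q.2} : Finset (Fin k)).card < h := by
      rw [Finset.card_pair hlt.ne]
      omega
    rw [WW_loc (sys h γ σ) {q.1, q.2} hcard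
      (fun z => if OK q.1 q.2 (z q.1) (z q.2) then (0 : ℝ) else 1) (fun x y hxy => by
        simp only [hxy q.1 (by simp), hxy q.2 (by simp)])]
    have e2 : ∀ z : Fin k → Fin k → GG k N p, PP (sys h γ σ) {q.1, q.2} z *
        (if OK q.1 q.2 (z q.1) (z q.2) then (0 : ℝ) else 1) = 0 := by
      intro z
      by_cases hok : OK q.1 q.2 (z q.1) (z q.2)
      · rw [if_pos hok, mul_zero]
      · rw [if_neg hok, mul_one]
        by_contra hne
        apply hok
        rw [PP_insert (sys h γ σ) q.1 {q.2} (by simpa using hlt.ne),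
          ← insert_empty_eq q.2, PP_insert (sys h γ σ) q.2 ∅ (notMem_empty _)] at hne
        have h4 := left_ne_zero_of_mul hne
        have h5 := right_ne_zero_of_mul hne
        have h6 := right_ne_zero_of_mul h4
        unfold ext at h5 h6
        have h7 := left_ne_zero_of_mul h5
        have h8 := right_ne_zero_of_mul h5
        have h9 := left_ne_zero_of_mul h6
        rw [insert_empty_eq, prod_singleton] at h8
        exact ⟨vv_val h γ q.1 (z q.1) h7, vv_val h γ q.2 (z q.2) h9, kap_pos σ _ h8⟩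
    rw [av_congr e2, av_const]
  · intro D hD q hq
    exact WW_psd (sys h γ σ) ((M : ℝ) / p) (by positivity) hK hεk D hD q hq

end Pool.Agent.H97.CM
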