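import Pool.Agent.H97.CL.Form
import Pool.Agent.H97.CL.SdpCore
import Pool.Agent.H97.CM.Ex

/-!
# Project CM: lower bound for semidefinite formulations, exponent `⌈h/2⌉`

As `Pool.Agent.H97.CL.FinSdp`, with the gadget of `exists_gadget` and `D = (h - 1) / 2`.
-/

set_option autoImplicit false

namespace Pool.Agent.H97.CM

open Finset Matrix
open Pool.Agent.H97.CL (av SS SS_card SDPForm core_sdp rd)

/-- growth of the powers. -/
theorem growth (k D : ℕ) (hk0 : 0 < k) (α : ℝ) (hα : 1 ≤ α) (hD : α ≤ (D : ℝ) + 1)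
    (ε : ℝ) (hε : 0 < ε) (hε1 : ε ≤ 1) (N₀ : ℕ) :
    ∃ n₀ : ℕ, ∀ n : ℕ, n₀ ≤ n → 1 ≤ n ∧ N₀ ≤ n / k ∧
      (n : ℝ) ^ (α - ε) ≤ ((n / k : ℕ) : ℝ) ^ ((D : ℝ) + 1 - ε / 2) := by
  have ht : Filter.Tendsto (fun x : ℝ => x ^ (ε / 2)) Filter.atTop Filter.atTop :=
    tendsto_rpow_atTop (by linarith)
  have ht' := ht.comp tendsto_natCast_atTop_atTop
  have hev := ht'.eventually_ge_atTop (((2 * k : ℕ) : ℝ) ^ (α - ε))
  obtain ⟨N₁, hN₁⟩ := Filter.eventually_atTop.1 hev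
  refine ⟨k * (N₀ + N₁ + 1), fun n hn => ?_⟩
  have hq : N₀ + N₁ + 1 ≤ n / k := by
    rw [Nat.le_div_iff_mul_le hk0]
    calc (N₀ + N₁ + 1) * k = k * (N₀ + N₁ + 1) := by ring
      _ ≤ n := hn
  have hn1 : 1 ≤ n := by
    refine le_trans ?_ hn
    exact Nat.mul_pos hk0 (by omega)
  refine ⟨hn1, by omega, ?_⟩
  set N : ℕ := n / k with hN
  have hN1 : 1 ≤ N := by omega
  have hnN : n ≤ (2 * k) * N := by
    have h1 : n < k * (N + 1) := by
      rw [hN]
      exact Nat.lt_mul_div_succ n hk0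
    have h2 : k * (N + 1) ≤ (2 * k) * N := by nlinarith
    omega
  have he : 0 ≤ α - ε := by linarith
  have h1 : (n : ℝ) ^ (α - ε) ≤ (((2 * k) * N : ℕ) : ℝ) ^ (α - ε) :=
    Real.rpow_le_rpow (Nat.cast_nonneg _) (by exact_mod_cast hnN) he
  have h2 : (((2 * k) * N : ℕ) : ℝ) ^ (α - ε) =
      (((2 * k : ℕ) : ℝ) ^ (α - ε)) * ((N : ℝ) ^ (α - ε)) := by
    rw [Nat.cast_mul, Real.mul_rpow (Nat.cast_nonneg _) (Nat.cast_nonneg _)]
  have hNpos : (0 : ℝ) < N := by exact_mod_cast hN1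
  have hN1' : (1 : ℝ) ≤ N := by exact_mod_cast hN1
  have h3 : ((2 * k : ℕ) : ℝ) ^ (α - ε) ≤ (N : ℝ) ^ (ε / 2) := hN₁ N (by omega)
  calc (n : ℝ) ^ (α - ε)
      ≤ (((2 * k : ℕ) : ℝ) ^ (α - ε)) * ((N : ℝ) ^ (α - ε)) := by
        rw [← h2]; exact h1
    _ ≤ (N : ℝ) ^ (ε / 2) * ((N : ℝ) ^ (α - ε)) :=
        mul_le_mul_of_nonneg_right h3 (Real.rpow_nonneg hNpos.le _)
    _ = (N : ℝ) ^ (ε / 2 + (α - ε)) := by rw [Real.rpow_add hNpos]
    _ ≤ (N : ℝ) ^ ((D : ℝ) + 1 - ε / 2) := by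
        refine Real.rpow_le_rpow_of_exponent_le hN1' ?_
        linarith

theorem sdp_half (h k : ℕ) (h3 : 3 ≤ h) (hk : h ≤ k) (δ ε : ℝ) (hδ : 0 < δ) (hε : 0 < ε) :
    ∃ n₀ : ℕ, ∀ n : ℕ, n₀ ≤ n → ∀ R : ℕ, SDPForm n k h δ R →
      (n : ℝ) ^ ((((h + 1) / 2 : ℕ) : ℝ) - ε) ≤ R := by
  classical
  obtain ⟨V, _, _, OK, W, hs, hno, hW1, hWc, hWp⟩ := exists_gadget h k h3
  set D : ℕ := (h - 1) / 2 with hDdef
  have hD3 : 2 * D < h := by omega
  have hDh : (h + 1) / 2 = D + 1 := by omega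
  have hDr : (((h + 1) / 2 : ℕ) : ℝ) = (D : ℝ) + 1 := by
    rw [hDh]
    push_cast
    ring
  set ε' : ℝ := min ε 1 with hε'def
  have hε' : 0 < ε' := lt_min hε one_pos
  have hε'1 : ε' ≤ 1 := min_le_right _ _
  have hε'ε : ε' ≤ ε := min_le_left _ _
  obtain ⟨N₀, hN₀⟩ := core_sdp k D W (fun z => cst OK z) hW1 (hWp D hD3)
    (fun z => cst_nonneg OK z) hWc δ (ε' / 2) hδ (by linarith)
  obtain ⟨n₀, hn₀⟩ := growth k D (by omega) (((h + 1) / 2 : ℕ) : ℝ)
    (by rw [hDr]; have : (0 : ℝ) ≤ D := Nat.cast_nonneg D; linarith) hDr.le ε' hε' hε'1 N₀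
  refine ⟨n₀, fun n hn R hform => ?_⟩
  obtain ⟨hn1, hNN, hgr⟩ := hn₀ n hn
  by_contra hcon
  push Not at hcon
  have hkn : k * (n / k) ≤ n := Nat.mul_div_le n k
  have hR : (R : ℝ) ≤ ((n / k : ℕ) : ℝ) ^ ((D : ℝ) + 1 - ε' / 2) := by
    refine le_trans hcon.le (le_trans ?_ hgr)
    refine Real.rpow_le_rpow_of_exponent_le (by exact_mod_cast hn1) ?_
    linarith
  obtain ⟨m, e, M₀, M, E, b, y, w, c, hy, hw, hfree⟩ := hform
  obtain ⟨x, cc, hc1, hcp, hcf⟩ := hN₀ (n / k) hNN R hR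
    (fun u => M₀ + ∑ i, y (SS hkn u) i • M i) (fun u => (hy _ (SS_card hkn u)).1)
  set z : Fin m → ℝ := fun i => ∑ u, cc u * y (SS hkn u) i with hz
  have hz1 : M₀ + ∑ i, z i • M i = ∑ u, cc u • (M₀ + ∑ i, y (SS hkn u) i • M i) := by
    have e1 : ∑ u, cc u • (M₀ + ∑ i, y (SS hkn u) i • M i) =
        (∑ u, cc u) • M₀ + ∑ u, cc u • ∑ i, y (SS hkn u) i • M i := by
      rw [Finset.sum_smul, ← Finset.sum_add_distrib]
      refine Finset.sum_congr rfl ?_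
      intro u _
      rw [smul_add]
    rw [e1, hc1, one_smul]
    congr 1
    have e2 : ∀ i, z i • M i = ∑ u, cc u • y (SS hkn u) i • M i := by
      intro i
      rw [hz, Finset.sum_smul]
      refine Finset.sum_congr rfl ?_
      intro u _
      rw [smul_smul]
    rw [Finset.sum_congr rfl (fun i _ => e2 i), Finset.sum_comm]
    refine Finset.sum_congr rfl ?_
    intro u _
    rw [Finset.smul_sum]
  have hz2 : E *ᵥ z = b := by
    funext r
    have e1 : ∀ u, ∑ i, E r i * y (SS hkn u) i = b r := by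
      intro u
      have := congrFun (hy _ (SS_card hkn u)).2 r
      simpa [Matrix.mulVec, dotProduct] using this
    have e2 : (E *ᵥ z) r = ∑ i, E r i * z i := by
      simp [Matrix.mulVec, dotProduct]
    rw [e2, hz]
    have e3 : ∀ i, E r i * (∑ u, cc u * y (SS hkn u) i) =
        ∑ u, cc u * (E r i * y (SS hkn u) i) := by
      intro i
      rw [Finset.mul_sum]
      refine Finset.sum_congr rfl ?_
      intro u _
      ring
    rw [Finset.sum_congr rfl (fun i _ => e3 i), Finset.sum_comm]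
    have e4 : ∀ u, ∑ i, cc u * (E r i * y (SS hkn u) i) = cc u * b r := by
      intro u
      rw [← Finset.mul_sum, e1 u]
    rw [Finset.sum_congr rfl (fun u _ => e4 u), ← Finset.sum_mul, hc1, one_mul]
  have hG := hfree (gr OK hs hkn x) (gr_free OK hs h (by omega) hno hkn x) z (by rw [hz1]; exact hcp) hz2
  have hval : w (gr OK hs hkn x) ⬝ᵥ z + c (gr OK hs hkn x) =
      k - ∑ u, cc u * cst OK (rd x u) := by
    have e1 : ∀ u, w (gr OK hs hkn x) ⬝ᵥ y (SS hkn u) + c (gr OK hs hkn x) =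
        k - cst OK (rd x u) := by
      intro u
      rw [hw _ _ (SS_card hkn u), nonEdges_gr]
      rfl
    have e2 : w (gr OK hs hkn x) ⬝ᵥ z = ∑ u, cc u * (w (gr OK hs hkn x) ⬝ᵥ y (SS hkn u)) := by
      simp only [dotProduct, hz]
      have e3 : ∀ i, w (gr OK hs hkn x) i * (∑ u, cc u * y (SS hkn u) i) =
          ∑ u, cc u * (w (gr OK hs hkn x) i * y (SS hkn u) i) := by
        intro i
        rw [Finset.mul_sum]
        refine Finset.sum_congr rfl ?_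
        intro u _
        ring
      rw [Finset.sum_congr rfl (fun i _ => e3 i), Finset.sum_comm]
      refine Finset.sum_congr rfl ?_
      intro u _
      rw [Finset.mul_sum]
    have e3 : ∑ u, cc u * (w (gr OK hs hkn x) ⬝ᵥ y (SS hkn u) + c (gr OK hs hkn x)) =
        ∑ u, cc u * (k - cst OK (rd x u)) :=
      Finset.sum_congr rfl (fun u _ => by rw [e1 u])
    simp only [mul_add, mul_sub, Finset.sum_add_distrib, Finset.sum_sub_distrib,
      ← Finset.sum_mul, hc1, one_mul] at e3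
    rw [e2]
    exact e3
  rw [hval] at hG
  linarith

end Pool.Agent.H97.CM
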