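import Mathlib
import Pool.Agent.H97.CL.Av

/-!
# Project CM (MP_1fcf49_lc): Parseval on a finite abelian group and convolutions of small bias

`parseval`: the sum of the squares of the Fourier coefficients is the mean square.
`conv_bound`: if `τ : S → Γ` has bias at most `ε` (for every nontrivial character) then averaging
`φ (τ s - t)` over `s` gives the mean of `φ` up to `ε ‖φ‖` in mean square over `t`.
-/

set_option autoImplicit false

namespace Pool.Agent.H97.CM

open Finset
open Pool.Agent.H97.CL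

section fourier

variable {Γ : Type} [Fintype Γ] [AddCommGroup Γ]

/-- the Fourier coefficient -/
noncomputable def fc (f : Γ → ℝ) (ψ : AddChar Γ ℂ) : ℂ :=
  (∑ x, (f x : ℂ) * ψ x) / Fintype.card Γ

private lemma conj_char (ψ : AddChar Γ ℂ) (x : Γ) : (starRingEnd ℂ) (ψ x) = ψ (-x) := by
  rw [AddChar.map_neg_eq_inv, ← Complex.inv_eq_conj (AddChar.norm_apply ψ x)]

theorem parseval (f : Γ → ℝ) : ∑ ψ : AddChar Γ ℂ, ‖fc f ψ‖ ^ 2 = av (fun x => f x ^ 2) := by
  classical
  have hn : (Fintype.card Γ : ℂ) ≠ 0 := by exact_mod_cast Fintype.card_ne_zero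
  have key : ((∑ ψ : AddChar Γ ℂ, ‖fc f ψ‖ ^ 2 : ℝ) : ℂ) = ((av (fun x => f x ^ 2) : ℝ) : ℂ) := by
    have h1 : ∀ ψ : AddChar Γ ℂ, ((‖fc f ψ‖ ^ 2 : ℝ) : ℂ) =
        (∑ x, ∑ y, (f x : ℂ) * (f y : ℂ) * ψ (x - y)) / (Fintype.card Γ : ℂ) ^ 2 := by
      intro ψ
      push_cast
      rw [← Complex.mul_conj']
      unfold fc
      rw [map_div₀, map_sum, Complex.conj_natCast, div_mul_div_comm, ← sq, Finset.sum_mul_sum]
      congr 1
      refine Finset.sum_congr rfl fun x _ => Finset.sum_congr rfl fun y _ => ?_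
      rw [map_mul, Complex.conj_ofReal, conj_char, sub_eq_add_neg, AddChar.map_add_eq_mul]
      ring
    push_cast [av]
    have h2 : ∀ ψ : AddChar Γ ℂ, ((‖fc f ψ‖ : ℂ)) ^ 2 =
        (∑ x, ∑ y, (f x : ℂ) * (f y : ℂ) * ψ (x - y)) / (Fintype.card Γ : ℂ) ^ 2 := by
      intro ψ
      have := h1 ψ
      push_cast at this
      exact this
    rw [Finset.sum_congr rfl (fun ψ _ => h2 ψ), ← Finset.sum_div, Finset.sum_comm]
    have h3 : ∀ x : Γ, ∑ ψ : AddChar Γ ℂ, ∑ y, (f x : ℂ) * (f y : ℂ) * ψ (x - y) =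
        (f x : ℂ) ^ 2 * Fintype.card Γ := by
      intro x
      rw [Finset.sum_comm]
      have h4 : ∀ y : Γ, ∑ ψ : AddChar Γ ℂ, (f x : ℂ) * (f y : ℂ) * ψ (x - y) =
          if y = x then (f x : ℂ) ^ 2 * Fintype.card Γ else 0 := by
        intro y
        rw [← Finset.mul_sum, AddChar.sum_apply_eq_ite]
        by_cases hxy : y = x
        · subst hxy
          simp
          ring
        · rw [if_neg hxy, if_neg (fun h => hxy (sub_eq_zero.1 h).symm), mul_zero]
      rw [Finset.sum_congr rfl (fun y _ => h4 y)]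
      simp
    rw [Finset.sum_congr rfl (fun x _ => h3 x), ← Finset.sum_mul]
    field_simp
  exact_mod_cast key

theorem conv_bound {S : Type} [Fintype S] [Nonempty S] (τ : S → Γ) (ε : ℝ) (hε : 0 ≤ ε)
    (hb : ∀ ψ : AddChar Γ ℂ, ψ ≠ 0 → ‖(∑ s, ψ (τ s)) / Fintype.card S‖ ≤ ε) (φ : Γ → ℝ) :
    av (fun t => (av (fun s => φ (τ s - t)) - av φ) ^ 2) ≤ ε ^ 2 * av (fun x => φ x ^ 2) := by
  classical
  have hn : (Fintype.card Γ : ℂ) ≠ 0 := by exact_mod_cast Fintype.card_ne_zero
  have hS : (Fintype.card S : ℂ) ≠ 0 := by exact_mod_cast Fintype.card_ne_zero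
  rw [← parseval, ← parseval, Finset.mul_sum]
  refine Finset.sum_le_sum fun ψ _ => ?_
  rw [← mul_pow]
  refine pow_le_pow_left₀ (norm_nonneg _) ?_ 2
  by_cases hψ : ψ = 0
  · subst hψ
    have h0 : fc (fun t => av (fun s => φ (τ s - t)) - av φ) (0 : AddChar Γ ℂ) =
        ((av (fun t => av (fun s => φ (τ s - t)) - av φ) : ℝ) : ℂ) := by
      unfold fc av
      push_cast
      simp
    have h1 : av (fun t => av (fun s => φ (τ s - t)) - av φ) = 0 := by
      rw [av_sub, av_comm, av_const]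
      have h2 : ∀ s : S, av (fun t : Γ => φ (τ s - t)) = av φ := fun s =>
        av_equiv (Equiv.subLeft (τ s)) φ
      rw [av_congr h2, av_const, sub_self]
    rw [h0, h1]
    simp only [Complex.ofReal_zero, norm_zero]
    positivity
  · have hsum : ∑ t : Γ, ψ t = 0 := AddChar.sum_eq_zero_iff_ne_zero.2 hψ
    have h1 : fc (fun t => av (fun s => φ (τ s - t)) - av φ) ψ =
        ((∑ s, ψ (τ s)) / Fintype.card S) * (starRingEnd ℂ) (fc φ ψ) := by
      unfold fc
      rw [map_div₀, map_sum, Complex.conj_natCast]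
      have h2 : ∀ t : Γ, (((av (fun s => φ (τ s - t)) - av φ : ℝ)) : ℂ) * ψ t =
          (∑ s, (φ (τ s - t) : ℂ) * ψ t) / Fintype.card S - (av φ : ℂ) * ψ t := by
        intro t
        unfold av
        push_cast
        rw [← Finset.sum_mul]
        ring
      rw [Finset.sum_congr rfl (fun t _ => h2 t), Finset.sum_sub_distrib, ← Finset.mul_sum, hsum,
        mul_zero, sub_zero, ← Finset.sum_div, Finset.sum_comm]
      have h3 : ∀ s : S, ∑ t : Γ, (φ (τ s - t) : ℂ) * ψ t =
          ψ (τ s) * ∑ x, (starRingEnd ℂ) ((φ x : ℂ) * ψ x) := by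
        intro s
        rw [Finset.mul_sum, ← Equiv.sum_comp (Equiv.subLeft (τ s))
          (fun x => ψ (τ s) * (starRingEnd ℂ) ((φ x : ℂ) * ψ x))]
        refine Finset.sum_congr rfl fun t _ => ?_
        rw [Equiv.subLeft_apply, map_mul, Complex.conj_ofReal, conj_char,
          show t = τ s + -(τ s - t) by abel, AddChar.map_add_eq_mul]
        simp only [neg_sub, add_sub_cancel]
        ring
      rw [Finset.sum_congr rfl (fun s _ => h3 s), ← Finset.sum_mul]
      field_simp
    rw [h1, norm_mul, RCLike.norm_conj]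
    exact mul_le_mul_of_nonneg_right (hb ψ hψ) (norm_nonneg _)

end fourier

end Pool.Agent.H97.CM
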