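import Pool.Agent.H97.CM.Sys
import Pool.Agent.H97.CM.Bias

/-!
# Project CM: the gadget, combinatorial part

Slots in `G = (Finset (Fin k) × Fin N → ZMod p)`.  `Val h γ a t`: the parity conditions of the block `a`.
`val_ext`: they can be solved with prescribed slots in `B`, `#B + 2 ≤ h`.  `no_cl`: no `h`-clique.
-/

set_option autoImplicit false

namespace Pool.Agent.H97.CM

open Finset
open Pool.Agent.H97.CL

/-- the slots -/
abbrev GG (k N p : ℕ) : Type := Finset (Fin k) × Fin N → ZMod p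

variable {k N p : ℕ}

/-- the valid labels of the block `a` -/
def Val (h : ℕ) (γ : Fin k → Finset (Fin k) → Fin N → ZMod p) (a : Fin k) (t : Fin k → GG k N p) :
    Prop :=
  ∀ J : Finset (Fin k), J.card = h → a ∈ J → ∀ l : Fin N, ∑ j ∈ J.erase a, t j (J, l) = γ a J l

theorem val_ext (h : ℕ) (γ : Fin k → Finset (Fin k) → Fin N → ZMod p) (a : Fin k)
    (B : Finset (Fin k)) (hB : B.card + 2 ≤ h) (δ : Fin k → GG k N p) :
    ∃ τ : Fin k → GG k N p, Val h γ a τ ∧ ∀ b ∈ B, τ b = δ b := by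
  classical
  have hex : ∀ J : Finset (Fin k), ∃ j : Fin k, J.card = h → a ∈ J → j ∈ J.erase a ∧ j ∉ B := by
    intro J
    by_cases hJ : J.card = h ∧ a ∈ J
    · have h1 : ¬ J.erase a ⊆ B := by
        intro hsub
        have h2 := card_le_card hsub
        rw [card_erase_of_mem hJ.2, hJ.1] at h2
        omega
      obtain ⟨j, hj, hjB⟩ := not_subset.1 h1
      exact ⟨j, fun _ _ => ⟨hj, hjB⟩⟩
    · exact ⟨a, fun h1 h2 => absurd ⟨h1, h2⟩ hJ⟩
  choose jj hjj using hex
  refine ⟨fun j r => if j ∈ B then δ j r else if j = jj r.1 then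
    γ a r.1 r.2 - ∑ b ∈ (r.1.erase a).filter (fun b => b ∈ B), δ b r else 0, ?_, ?_⟩
  · intro J hJ haJ l
    obtain ⟨h1, h2⟩ := hjj J hJ haJ
    rw [← sum_filter_add_sum_filter_not (J.erase a) (fun b => b ∈ B)]
    have e1 : ∑ x ∈ (J.erase a).filter (fun b => b ∈ B), (if x ∈ B then δ x (J, l) else
        if x = jj J then γ a J l - ∑ b ∈ (J.erase a).filter (fun b => b ∈ B), δ b (J, l) else 0) =
        ∑ x ∈ (J.erase a).filter (fun b => b ∈ B), δ x (J, l) :=
      sum_congr rfl fun x hx => if_pos (mem_filter.1 hx).2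
    have e2 : ∑ x ∈ (J.erase a).filter (fun b => b ∉ B), (if x ∈ B then δ x (J, l) else
        if x = jj J then γ a J l - ∑ b ∈ (J.erase a).filter (fun b => b ∈ B), δ b (J, l) else 0) =
        γ a J l - ∑ b ∈ (J.erase a).filter (fun b => b ∈ B), δ b (J, l) := by
      rw [sum_eq_single (jj J)]
      · rw [if_neg h2, if_pos rfl]
      · intro x hx hne
        rw [if_neg (mem_filter.1 hx).2, if_neg hne]
      · intro h3
        exact absurd (mem_filter.2 ⟨h1, h2⟩) h3
    rw [e1, e2]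
    ring
  · intro b hb
    funext r
    simp only [if_pos hb]

theorem sum_sym {A : Type} [AddCommMonoid A] (J : Finset (Fin k)) (f : Fin k → Fin k → A) :
    ∑ i ∈ J, ∑ j ∈ J.erase i, f i j =
      ∑ i ∈ J, ∑ j ∈ J, if i < j then f i j + f j i else 0 := by
  classical
  have h1 : ∀ i ∈ J, ∑ j ∈ J.erase i, f i j =
      (∑ j ∈ J, if i < j then f i j else 0) + ∑ j ∈ J, if j < i then f i j else 0 := by
    intro i hi
    rw [← sum_add_distrib, ← add_sum_erase J _ hi]
    rw [if_neg (lt_irrefl i), add_zero, zero_add]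
    refine sum_congr rfl fun j hj => ?_
    rcases lt_or_gt_of_ne (ne_of_mem_erase hj) with h | h
    · rw [if_neg (not_lt.2 h.le), if_pos h, zero_add]
    · rw [if_pos h, if_neg (not_lt.2 h.le), add_zero]
  rw [sum_congr rfl h1, sum_add_distrib]
  have h2 : ∑ i ∈ J, ∑ j ∈ J, (if j < i then f i j else 0) =
      ∑ i ∈ J, ∑ j ∈ J, if i < j then f j i else 0 := sum_comm
  rw [h2, ← sum_add_distrib]
  refine sum_congr rfl fun i _ => ?_
  rw [← sum_add_distrib]
  refine sum_congr rfl fun j _ => ?_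
  split_ifs
  · rfl
  · exact add_zero 0

variable {S : Type}

/-- the possible total sums on `J` -/
def tot (σ : S → GG k N p) (J : Finset (Fin k)) (s : Fin k → Fin k → S) : Fin N → ZMod p :=
  fun l => ∑ i ∈ J, ∑ j ∈ J, if i < j then σ (s i j) (J, l) else 0

theorem no_cl [Nonempty S] (h : ℕ) (h1 : 1 ≤ h) (σ : S → GG k N p)
    (c : Finset (Fin k) → Fin N → ZMod p) (hc : ∀ J s, tot σ J s ≠ c J) (J : Finset (Fin k))
    (hJ : J.card = h) (z : Fin k → Fin k → GG k N p)
    (hv : ∀ i ∈ J, Val h (fun i J l => if ∀ j ∈ J, i ≤ j then c J l else 0) i (z i))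
    (hp : ∀ i ∈ J, ∀ j ∈ J, i ≠ j → ∃ s, z i j + z j i = σ s) : False := by
  classical
  have hs : ∀ i j : Fin k, ∃ s : S, i ∈ J → j ∈ J → i < j → z i j + z j i = σ s := by
    intro i j
    by_cases hij : i ∈ J ∧ j ∈ J ∧ i < j
    · obtain ⟨s, hs⟩ := hp i hij.1 j hij.2.1 hij.2.2.ne
      exact ⟨s, fun _ _ _ => hs⟩
    · exact ⟨Classical.arbitrary S, fun a b c => absurd ⟨a, b, c⟩ hij⟩
  choose s hs using hs
  refine hc J s ?_
  funext l
  have h2 : ∑ i ∈ J, ∑ j ∈ J.erase i, z i j (J, l) = c J l := by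
    have e1 : ∀ i ∈ J, ∑ j ∈ J.erase i, z i j (J, l) = if ∀ j ∈ J, i ≤ j then c J l else 0 :=
      fun i hi => hv i hi J hJ hi l
    rw [sum_congr rfl e1]
    have hne : J.Nonempty := card_pos.1 (by omega)
    rw [sum_eq_single (J.min' hne)]
    · rw [if_pos fun j hj => J.min'_le j hj]
    · intro i hi hne'
      rw [if_neg]
      intro h3
      exact hne' (le_antisymm (h3 _ (J.min'_mem hne)) (J.min'_le i hi))
    · intro h3
      exact absurd (J.min'_mem hne) h3
  rw [sum_sym] at h2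
  rw [← h2]
  unfold tot
  refine sum_congr rfl fun i hi => sum_congr rfl fun j hj => ?_
  by_cases hij : i < j
  · rw [if_pos hij, if_pos hij, ← hs i j hi hj hij]
    rfl
  · rw [if_neg hij, if_neg hij]

theorem exists_c [Fact p.Prime] [Fintype S] (hS : Fintype.card S = p * p) (hN : N = 2 * k * k + 1)
    (σ : S → GG k N p) : ∃ c : Finset (Fin k) → Fin N → ZMod p, ∀ J s, tot σ J s ≠ c J := by
  classical
  have hp2 : 2 ≤ p := (Fact.out : p.Prime).two_le
  have key : ∀ J : Finset (Fin k), ∃ c : Fin N → ZMod p, ∀ s, tot σ J s ≠ c := by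
    intro J
    by_contra hcon
    push Not at hcon
    have h1 := Fintype.card_le_of_surjective (tot σ J) hcon
    rw [Fintype.card_fun, Fintype.card_fun, Fintype.card_fun, ZMod.card, hS, Fintype.card_fin,
      Fintype.card_fin, hN] at h1
    have h2 : ((p * p) ^ k) ^ k = p ^ (2 * k * k) := by
      rw [← pow_two, ← pow_mul, ← pow_mul, mul_assoc]
    rw [h2] at h1
    exact absurd h1 (not_le.2 (Nat.pow_lt_pow_right (by omega) (by omega)))
  choose c hc using key
  exact ⟨c, fun J s => hc J s⟩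

end Pool.Agent.H97.CM
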