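import Pool.Agent.H97.CM.Gad
import Pool.Agent.H97.CM.Four
import Pool.Agent.H97.CM.Cross

/-!
# Project CM: the gadget as a system of local densities

`kap`: the density of `σ`; `vv`: the density of the valid labels.  `vv_U`: at most `h - 2` slots of a random
valid label are independent and uniform.  `kb_of_bias`: small bias gives `KB`.
-/

set_option autoImplicit false

namespace Pool.Agent.H97.CM

open Finset
open Pool.Agent.H97.CL

section kappa

variable {G S : Type} [Fintype G] [AddCommGroup G] [Fintype S] [Nonempty S]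

open Classical in
/-- the density of the random element `σ s` -/
noncomputable def kap (σ : S → G) (g : G) : ℝ :=
  Fintype.card G * av (fun s => if σ s = g then (1 : ℝ) else 0)

theorem kap_nonneg (σ : S → G) (g : G) : 0 ≤ kap σ g := by
  refine mul_nonneg (by positivity) (av_nonneg fun s => ?_)
  split_ifs
  · exact zero_le_one
  · exact le_rfl

theorem kap_pos (σ : S → G) (g : G) (h : kap σ g ≠ 0) : ∃ s, g = σ s := by
  by_contra hcon
  push Not at hcon
  refine h ?_
  unfold kap av
  rw [sum_eq_zero (fun s _ => if_neg (fun h' => hcon s h'.symm)), zero_div, mul_zero]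

theorem kap_av (σ : S → G) (F : G → ℝ) : av (fun g => kap σ g * F g) = av (fun s => F (σ s)) := by
  classical
  have hG : (Fintype.card G : ℝ) ≠ 0 := by exact_mod_cast Fintype.card_ne_zero
  unfold kap
  have h1 : ∀ g, (Fintype.card G : ℝ) * av (fun s => if σ s = g then (1 : ℝ) else 0) * F g =
      Fintype.card G * av (fun s => if σ s = g then F (σ s) else 0) := by
    intro g
    rw [mul_assoc, ← av_mul_right]
    congr 1
    refine av_congr fun s => ?_
    split_ifs with h
    · rw [h, one_mul]
    · rw [zero_mul]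
  rw [av_congr h1, av_mul_left, av_comm, ← av_mul_left]
  refine av_congr fun s => ?_
  unfold av
  rw [sum_ite_eq, if_pos (mem_univ _)]
  field_simp

theorem kap_one (σ : S → G) : av (kap σ) = 1 := by
  have h1 := kap_av σ (fun _ => 1)
  simp only [mul_one] at h1
  rw [h1, av_const]

theorem av_pi {k : ℕ} (f : Fin k → S → ℝ) :
    av (fun s : Fin k → S => ∏ c, f c (s c)) = ∏ c, av (f c) := by
  classical
  unfold av
  rw [prod_div_distrib, prod_univ_sum, Fintype.piFinset_univ, prod_const, card_univ,
    Fintype.card_fin, Fintype.card_fun, Fintype.card_fin]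
  push_cast
  rfl

/-- the product of the densities is the density of the family -/
theorem kap_pi {k : ℕ} (σ : S → G) (t : Fin k → G) (φ : (Fin k → G) → ℝ) :
    av (fun w : Fin k → G => (∏ c, kap σ (t c + w c)) * φ w) =
      av (fun s : Fin k → S => φ ((fun c => σ (s c)) - t)) := by
  classical
  have h1 : ∀ w : Fin k → G, ∏ c, kap σ (t c + w c) =
      kap (fun s : Fin k → S => fun c => σ (s c)) (t + w) := by
    intro w
    unfold kap
    rw [prod_mul_distrib, prod_const, card_univ, Fintype.card_fin, Fintype.card_fun,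
      Fintype.card_fin, ← av_pi]
    push_cast
    congr 1
    refine av_congr fun s => ?_
    by_cases h : (fun c => σ (s c)) = t + w
    · rw [if_pos h]
      exact prod_eq_one fun c _ => if_pos (congrFun h c)
    · rw [if_neg h]
      obtain ⟨c, hc⟩ : ∃ c, σ (s c) ≠ t c + w c := by
        by_contra hcon
        push Not at hcon
        exact h (funext hcon)
      exact prod_eq_zero (mem_univ c) (if_neg hc)
  have h2 : ∀ w : Fin k → G, (∏ c, kap σ (t c + w c)) * φ w =
      (fun g => kap (fun s : Fin k → S => fun c => σ (s c)) g * φ (g - t)) (Equiv.addLeft t w) := by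
    intro w
    rw [h1]
    simp only [Equiv.coe_addLeft, add_sub_cancel_left]
  rw [av_congr h2, av_equiv (Equiv.addLeft t)
    (fun g => kap (fun s : Fin k → S => fun c => σ (s c)) g * φ (g - t)),
    kap_av (fun s : Fin k → S => fun c => σ (s c)) (fun g => φ (g - t))]

end kappa

section valid

variable {k N p : ℕ} [Fact p.Prime]

open Classical in
/-- the indicator of the valid labels -/
noncomputable def vi (h : ℕ) (γ : Fin k → Finset (Fin k) → Fin N → ZMod p) (a : Fin k)
    (t : Fin k → GG k N p) : ℝ := if Val h γ a t then 1 else 0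

/-- the density of the valid labels -/
noncomputable def vv (h : ℕ) (γ : Fin k → Finset (Fin k) → Fin N → ZMod p) (a : Fin k)
    (t : Fin k → GG k N p) : ℝ := vi h γ a t / av (vi h γ a)

theorem vi_nonneg (h : ℕ) (γ : Fin k → Finset (Fin k) → Fin N → ZMod p) (a : Fin k)
    (t : Fin k → GG k N p) : 0 ≤ vi h γ a t := by
  unfold vi
  split_ifs
  · exact zero_le_one
  · exact le_rfl

theorem vi_pos (h : ℕ) (h2 : 2 ≤ h) (γ : Fin k → Finset (Fin k) → Fin N → ZMod p) (a : Fin k) :
    0 < av (vi h γ a) := by
  obtain ⟨τ, hτ, -⟩ := val_ext h γ a ∅ (by simpa using h2) 0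
  rcases (av_nonneg (vi_nonneg h γ a)).eq_or_lt with h3 | h3
  · exfalso
    have h4 := av_zero_iff (vi_nonneg h γ a) h3.symm τ
    unfold vi at h4
    rw [if_pos hτ] at h4
    exact one_ne_zero h4
  · exact h3

theorem vv_nonneg (h : ℕ) (γ : Fin k → Finset (Fin k) → Fin N → ZMod p) (a : Fin k)
    (t : Fin k → GG k N p) : 0 ≤ vv h γ a t :=
  div_nonneg (vi_nonneg h γ a t) (av_nonneg (vi_nonneg h γ a))

theorem vv_val (h : ℕ) (γ : Fin k → Finset (Fin k) → Fin N → ZMod p) (a : Fin k)
    (t : Fin k → GG k N p) (ht : vv h γ a t ≠ 0) : Val h γ a t := by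
  by_contra hcon
  refine ht ?_
  unfold vv vi
  rw [if_neg hcon, zero_div]

theorem vv_U (h : ℕ) (γ : Fin k → Finset (Fin k) → Fin N → ZMod p) (a : Fin k)
    (B : Finset (Fin k)) (hB : B.card + 2 ≤ h) (F : (Fin k → GG k N p) → ℝ) (hF : DepOn B F) :
    av (fun t => vv h γ a t * F t) = av F := by
  classical
  have hpos := vi_pos h (by omega) γ a
  have key : av (fun t => vi h γ a t * F t) = av (vi h γ a) * av F := by
    have h1 : ∀ δ : Fin k → GG k N p, av (fun t => vi h γ a t * F (t + δ)) =
        av (fun t => vi h γ a t * F t) := by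
      intro δ
      obtain ⟨τ, hτ, hτB⟩ := val_ext h (fun _ _ _ => (0 : ZMod p)) a B hB δ
      rw [← av_equiv (Equiv.addRight τ) (fun t => vi h γ a t * F t)]
      refine av_congr fun t => ?_
      simp only [Equiv.coe_addRight]
      have e1 : vi h γ a (t + τ) = vi h γ a t := by
        have e2 : Val h γ a (t + τ) ↔ Val h γ a t := by
          unfold Val
          refine forall_congr' fun J => forall_congr' fun hJ => forall_congr' fun haJ =>
            forall_congr' fun l => ?_
          have e3 : ∑ j ∈ J.erase a, (t + τ) j (J, l) = ∑ j ∈ J.erase a, t j (J, l) := by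
            simp only [Pi.add_apply, sum_add_distrib]
            rw [hτ J hJ haJ l, add_zero]
          rw [e3]
        unfold vi
        by_cases e4 : Val h γ a t
        · rw [if_pos e4, if_pos (e2.2 e4)]
        · rw [if_neg e4, if_neg (fun e5 => e4 (e2.1 e5))]
      have e6 : F (t + τ) = F (t + δ) := hF _ _ fun i hi => by
        simp only [Pi.add_apply, hτB i hi]
      rw [e1, e6]
    have h2 : av (fun δ : Fin k → GG k N p => av (fun t => vi h γ a t * F (t + δ))) =
        av (fun t => vi h γ a t * F t) := by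
      rw [av_congr h1, av_const]
    rw [← h2, av_comm, ← av_mul_right]
    refine av_congr fun t => ?_
    rw [av_mul_left]
    congr 1
    exact av_equiv (Equiv.addLeft t) F
  have h3 : ∀ t, vv h γ a t * F t = (av (vi h γ a))⁻¹ * (vi h γ a t * F t) := by
    intro t
    unfold vv
    ring
  rw [av_congr h3, av_mul_left, key]
  field_simp

end valid

section system

variable {k N p : ℕ} [Fact p.Prime] {S : Type} [Fintype S] [Nonempty S]

/-- the system of the gadget -/
noncomputable def sys (h : ℕ) (γ : Fin k → Finset (Fin k) → Fin N → ZMod p) (σ : S → GG k N p) :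
    Sys k h (GG k N p) where
  κ := kap σ
  v := vv h γ
  κ0 := kap_nonneg σ
  κ1 := kap_one σ
  v0 := vv_nonneg h γ
  hU := fun a B _ hB F hF => vv_U h γ a B hB F hF

theorem kb_of_bias (h : ℕ) (γ : Fin k → Finset (Fin k) → Fin N → ZMod p) (σ : S → GG k N p)
    (ε : ℝ) (hε : 0 ≤ ε)
    (hb : ∀ χ : AddChar (GG k N p) ℂ, χ ≠ 0 → ‖(∑ s, χ (σ s)) / Fintype.card S‖ ≤ ε) :
    KB (sys h γ σ) ε := by
  classical
  intro C φ hφ
  have h1 : ∀ t : Fin k → GG k N p,
      av (fun w : Fin k → GG k N p => (∏ c ∈ C, (sys h γ σ).κ (t c + w c)) * φ w) =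
      av (fun s : Fin k → S => φ ((fun c => σ (s c)) - t)) := by
    intro t
    rw [← kap_pi σ t φ]
    have h2 := av_kap (sys h γ σ) Cᶜ C disjoint_compl_left t
      (fun w => (∏ c ∈ C, (sys h γ σ).κ (t c + w c)) * φ w)
      (fun x y hxy => by
        simp only []
        rw [hφ x y hxy]
        congr 1
        exact prod_congr rfl fun c hc => by rw [hxy c hc])
    rw [← h2]
    refine av_congr fun w => ?_
    rw [← mul_assoc]
    congr 1
    have h3 : ∏ c ∈ Cᶜ, (sys h γ σ).κ (w c + t c) = ∏ c ∈ Cᶜ, kap σ (t c + w c) :=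
      prod_congr rfl fun c _ => by rw [add_comm]; rfl
    have h4 : ∏ c ∈ C, (sys h γ σ).κ (t c + w c) = ∏ c ∈ C, kap σ (t c + w c) := rfl
    rw [h3, h4, mul_comm, prod_mul_prod_compl]
  have h5 := conv_bound (fun s : Fin k → S => (fun c => σ (s c))) ε hε
    (fun ψ hψ => bias_pi σ ε hε hb ψ hψ) φ
  refine le_trans (le_of_eq ?_) h5
  refine av_congr fun t => ?_
  rw [h1 t]

end system

end Pool.Agent.H97.CM
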