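import Pool.Agent.H97.CM.Cross
import Pool.Agent.H97.CL.Ops

/-!
# Project CM: pure components and positivity

`gs`: orthogonal projection for a degenerate form.  `pure_rep`: a function of degree `D` is a sum of pure
functions `g C`, `#C ≤ D` (`g C` depends on `C` and is orthogonal for `PP C` to the functions on `C \ a`,
`a ∈ C`).  `WW_psd`: `av (WW q²) ≥ 0` for `2 deg q < h`.
-/

set_option autoImplicit false

namespace Pool.Agent.H97.CM

open Finset
open Pool.Agent.H97.CL

section gen

variable {Ω : Type} [Fintype Ω]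

/-- the form -/
noncomputable def bf (P f g : Ω → ℝ) : ℝ := av (fun z => P z * (f z * g z))

theorem bf_add (P f f' g : Ω → ℝ) : bf P (f + f') g = bf P f g + bf P f' g := by
  unfold bf
  rw [← av_add]
  exact av_congr fun z => by simp only [Pi.add_apply]; ring

theorem bf_smul (P f g : Ω → ℝ) (c : ℝ) : bf P (c • f) g = c * bf P f g := by
  unfold bf
  rw [← av_mul_left]
  exact av_congr fun z => by simp only [Pi.smul_apply, smul_eq_mul]; ring

theorem bf_comm (P f g : Ω → ℝ) : bf P f g = bf P g f := by
  unfold bf
  exact av_congr fun z => by ring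

theorem bf_sub (P f f' g : Ω → ℝ) : bf P (f - f') g = bf P f g - bf P f' g := by
  rw [sub_eq_add_neg, bf_add, ← neg_one_smul ℝ f', bf_smul]
  ring

theorem bf_add_right (P f g g' : Ω → ℝ) : bf P f (g + g') = bf P f g + bf P f g' := by
  rw [bf_comm, bf_add, bf_comm P g, bf_comm P g']

theorem bf_smul_right (P f g : Ω → ℝ) (c : ℝ) : bf P f (c • g) = c * bf P f g := by
  rw [bf_comm, bf_smul, bf_comm]

theorem bf_zero_right (P f : Ω → ℝ) : bf P f 0 = 0 := by
  unfold bf
  rw [av_congr (fun z => by simp only [Pi.zero_apply, mul_zero] : ∀ z, P z * (f z * (0 : Ω → ℝ) z) = 0)]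
  unfold av
  simp

theorem bf_self (P f : Ω → ℝ) (hP : ∀ x, 0 ≤ P x) : 0 ≤ bf P f f :=
  av_nonneg fun z => mul_nonneg (hP z) (mul_self_nonneg _)

theorem bf_cs (P f g : Ω → ℝ) (hP : ∀ x, 0 ≤ P x) : bf P f g ^ 2 ≤ bf P f f * bf P g g := by
  have h := wcs P f g hP
  have e : ∀ u : Ω → ℝ, av (fun x => P x * u x ^ 2) = bf P u u := fun u => by
    unfold bf
    exact av_congr fun x => by ring
  rw [e f, e g] at h
  exact h

theorem gs (P : Ω → ℝ) (hP : ∀ x, 0 ≤ P x) (s : Finset (Ω → ℝ)) :
    ∀ f : Ω → ℝ, ∃ u ∈ Submodule.span ℝ (s : Set (Ω → ℝ)), ∀ x ∈ s, bf P (f - u) x = 0 := by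
  classical
  induction s using Finset.induction_on with
  | empty => exact fun f => ⟨0, Submodule.zero_mem _, by simp⟩
  | insert y s hy ih =>
    intro f
    have hmono : Submodule.span ℝ (s : Set (Ω → ℝ)) ≤ Submodule.span ℝ ((insert y s : Finset _) : Set (Ω → ℝ)) :=
      Submodule.span_mono (by simp)
    have hspan : ∀ w : Ω → ℝ, (∀ x ∈ s, bf P w x = 0) →
        ∀ x ∈ Submodule.span ℝ (s : Set (Ω → ℝ)), bf P w x = 0 := by
      intro w hw x hx
      induction hx using Submodule.span_induction with
      | mem x hx => exact hw x hx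
      | zero => exact bf_zero_right P w
      | add x x' _ _ h1 h2 => rw [bf_add_right, h1, h2, add_zero]
      | smul c x _ h1 => rw [bf_smul_right, h1, mul_zero]
    obtain ⟨u, hu, hu'⟩ := ih f
    obtain ⟨v, hv, hv'⟩ := ih y
    set e : Ω → ℝ := y - v with he
    have hy' : y = e + v := by rw [he]; abel
    have hye : e ∈ Submodule.span ℝ ((insert y s : Finset _) : Set (Ω → ℝ)) :=
      Submodule.sub_mem _ (Submodule.subset_span (by simp)) (hmono hv)
    by_cases h0 : bf P e e = 0
    · refine ⟨u, hmono hu, fun x hx => ?_⟩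
      rcases Finset.mem_insert.1 hx with rfl | hx
      · have h1 : bf P (f - u) e = 0 := by
          have := bf_cs P (f - u) e hP
          rw [h0, mul_zero] at this
          exact pow_eq_zero_iff two_ne_zero |>.1 (le_antisymm this (sq_nonneg _))
        rw [hy', bf_add_right, h1, hspan (f - u) hu' v hv, add_zero]
      · exact hu' x hx
    · set c : ℝ := bf P (f - u) e / bf P e e with hc
      refine ⟨u + c • e, Submodule.add_mem _ (hmono hu) (Submodule.smul_mem _ _ hye), fun x hx => ?_⟩
      have h2 : f - (u + c • e) = (f - u) - c • e := by abel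
      rw [h2]
      have h3 : ∀ x ∈ s, bf P ((f - u) - c • e) x = 0 := by
        intro x hx
        rw [bf_sub, hu' x hx, bf_smul, hv' x hx, mul_zero, sub_zero]
      rcases Finset.mem_insert.1 hx with rfl | hx
      · have h1 : bf P ((f - u) - c • e) e = 0 := by
          rw [bf_sub, bf_smul, hc, div_mul_cancel₀ _ h0, sub_self]
        rw [hy', bf_add_right, h1, hspan _ h3 v hv, add_zero]
      · exact h3 x hx

theorem gs_sub (P : Ω → ℝ) (hP : ∀ x, 0 ≤ P x) (U : Submodule ℝ (Ω → ℝ)) (f : Ω → ℝ) :
    ∃ u ∈ U, ∀ x ∈ U, bf P (f - u) x = 0 := by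
  classical
  obtain ⟨s, hs⟩ : U.FG := IsNoetherian.noetherian U
  obtain ⟨u, hu, hu'⟩ := gs P hP s f
  rw [hs] at hu
  refine ⟨u, hu, fun x hx => ?_⟩
  rw [← hs] at hx
  induction hx using Submodule.span_induction with
  | mem x hx => exact hu' x hx
  | zero => exact bf_zero_right P _
  | add x x' _ _ h1 h2 => rw [bf_add_right, h1, h2, add_zero]
  | smul c x _ h1 => rw [bf_smul_right, h1, mul_zero]

end gen

variable {k h : ℕ} {G : Type} [Fintype G] [AddCommGroup G]

theorem dep_add {A : Finset (Fin k)} {V : Type} {F F' : (Fin k → V) → ℝ} (hF : DepOn A F)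
    (hF' : DepOn A F') : DepOn A (F + F') := fun x y hxy => by
  simp only [Pi.add_apply, hF x y hxy, hF' x y hxy]

theorem dep_smul {A : Finset (Fin k)} {V : Type} {F : (Fin k → V) → ℝ} (c : ℝ) (hF : DepOn A F) :
    DepOn A (c • F) := fun x y hxy => by
  simp only [Pi.smul_apply, hF x y hxy]

/-- splitting off the pure part -/
theorem pure_one (S : Sys k h G) (C : Finset (Fin k)) (F : (Fin k → Fin k → G) → ℝ)
    (hF : DepOn C F) : ∃ g r : (Fin k → Fin k → G) → ℝ, F = g + r ∧ DepOn C g ∧
      (∀ a ∈ C, OrthAt S C a g) ∧ LowDeg univ (C.card - 1) r := by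
  classical
  set U : Submodule ℝ ((Fin k → Fin k → G) → ℝ) :=
    Submodule.span ℝ {u | ∃ a ∈ C, DepOn (C.erase a) u} with hU
  obtain ⟨u, hu, hu'⟩ := gs_sub (PP S C) (PP_nonneg S C) U F
  have h1 : DepOn C u ∧ LowDeg univ (C.card - 1) u := by
    clear hu'
    rw [hU] at hu
    induction hu using Submodule.span_induction with
    | mem x hx =>
      obtain ⟨a, ha, hx⟩ := hx
      refine ⟨fun y z hyz => hx y z fun i hi => hyz i (mem_of_mem_erase hi), ?_⟩
      exact LowDeg_of_DepOn univ (C.erase a) (C.card - 1) (subset_univ _)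
        (card_erase_of_mem ha).le x (by simpa using hx)
    | zero => exact ⟨fun _ _ _ => rfl, LowDeg_zero _ _⟩
    | add x y _ _ hx hy => exact ⟨dep_add hx.1 hy.1, LowDeg_add _ _ _ _ hx.2 hy.2⟩
    | smul c x _ hx => exact ⟨dep_smul c hx.1, LowDeg_smul _ _ c _ hx.2⟩
  refine ⟨F - u, u, by abel, ?_, fun a ha w hw => ?_, h1.2⟩
  · rw [sub_eq_add_neg, ← neg_one_smul ℝ u]
    exact dep_add hF (dep_smul (-1) h1.1)
  · exact hu' w (Submodule.subset_span ⟨a, ha, hw⟩)

theorem pure_rep (S : Sys k h G) (D : ℕ) : ∀ q : (Fin k → Fin k → G) → ℝ, LowDeg univ D q →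
    ∃ g : Finset (Fin k) → (Fin k → Fin k → G) → ℝ, (∀ C, DepOn C (g C)) ∧
      (∀ C, ∀ a ∈ C, OrthAt S C a (g C)) ∧
      ∀ x, q x = ∑ C ∈ (univ : Finset (Fin k)).powerset.filter (fun C => C.card ≤ D), g C x := by
  classical
  induction D with
  | zero =>
    intro q hq
    obtain ⟨F, hF, hq⟩ := hq
    have hF' : DepOn (∅ : Finset (Fin k)) (F ∅) := by simpa using hF ∅
    refine ⟨fun C => if C = ∅ then F ∅ else 0, fun C => ?_, fun C a ha u _ => ?_, fun x => ?_⟩
    · by_cases hC : C = ∅
      · subst hC
        simpa using hF'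
      · simp only [if_neg hC]
        exact fun _ _ _ => rfl
    · have hC : C ≠ ∅ := fun h => by rw [h] at ha; exact absurd ha (notMem_empty a)
      simp only [if_neg hC]
      have e1 : ∀ z : Fin k → Fin k → G, PP S C z * ((0 : (Fin k → Fin k → G) → ℝ) z * u z) = 0 :=
        fun z => by simp
      rw [av_congr e1, av_const]
    · rw [hq x]
      refine sum_congr rfl fun C hC => ?_
      have hC' : C = ∅ := card_eq_zero.1 (Nat.le_zero.1 (mem_filter.1 hC).2)
      subst hC'
      simp
  | succ D ih =>
    intro q hq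
    obtain ⟨F, hF, hq⟩ := hq
    have hF' : ∀ C, DepOn C (F C) := fun C => by simpa using hF C
    choose g r hgr hg hgo hr using fun C => pure_one S C (F C) (hF' C)
    have hlow : LowDeg univ D (fun x =>
        (∑ C ∈ (univ : Finset (Fin k)).powerset.filter (fun C => C.card ≤ D), F C x) +
        ∑ C ∈ (univ : Finset (Fin k)).powerset.filter (fun C => C.card = D + 1), r C x) := by
      have e1 : LowDeg univ D (fun x : Fin k → Fin k → G =>
          ∑ C ∈ (univ : Finset (Fin k)).powerset.filter (fun C => C.card ≤ D), F C x) :=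
        ⟨F, hF, fun x => rfl⟩
      have e2 : LowDeg univ D (fun x : Fin k → Fin k → G =>
          ∑ C ∈ (univ : Finset (Fin k)).powerset.filter (fun C => C.card = D + 1), r C x) := by
        have e3 := LowDeg_sum ((univ : Finset (Fin k)).powerset.filter (fun C => C.card = D + 1))
          univ D r (fun C hC => by
            have e4 := hr C
            rw [(mem_filter.1 hC).2, Nat.add_sub_cancel] at e4
            exact e4)
        convert e3 using 1
        funext x
        simp
      exact LowDeg_add univ D _ _ e1 e2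
    obtain ⟨g', hg', hgo', hq'⟩ := ih _ hlow
    refine ⟨fun C => if C.card = D + 1 then g C else if C.card ≤ D then g' C else 0, fun C => ?_,
      fun C a ha => ?_, fun x => ?_⟩
    · by_cases h1 : C.card = D + 1
      · simp only [h1, if_true]
        exact hg C
      · by_cases h2 : C.card ≤ D
        · simp only [h1, if_false, h2, if_true]
          exact hg' C
        · simp only [h1, if_false, h2]
          exact fun _ _ _ => rfl
    · by_cases h1 : C.card = D + 1
      · simp only [h1, if_true]
        exact hgo C a ha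
      · by_cases h2 : C.card ≤ D
        · simp only [h1, if_false, h2, if_true]
          exact hgo' C a ha
        · simp only [h1, if_false, h2]
          intro u _
          have e1 : ∀ z : Fin k → Fin k → G, PP S C z * ((0 : (Fin k → Fin k → G) → ℝ) z * u z) = 0 :=
            fun z => by simp
          rw [av_congr e1, av_const]
    · have hsplit : ∀ f : Finset (Fin k) → ℝ,
          ∑ C ∈ (univ : Finset (Fin k)).powerset.filter (fun C => C.card ≤ D + 1), f C =
          (∑ C ∈ (univ : Finset (Fin k)).powerset.filter (fun C => C.card ≤ D), f C) +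
          ∑ C ∈ (univ : Finset (Fin k)).powerset.filter (fun C => C.card = D + 1), f C := by
        intro f
        rw [← sum_union]
        · congr 1
          ext C
          simp only [mem_filter, mem_union]
          constructor
          · rintro ⟨h1, h2⟩
            rcases Nat.lt_or_ge C.card (D + 1) with h3 | h3
            · exact Or.inl ⟨h1, by omega⟩
            · exact Or.inr ⟨h1, by omega⟩
          · rintro (⟨h1, h2⟩ | ⟨h1, h2⟩)
            · exact ⟨h1, by omega⟩
            · exact ⟨h1, by omega⟩
        · rw [disjoint_left]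
          intro C h1 h2
          have h3 := (mem_filter.1 h1).2
          have h4 := (mem_filter.1 h2).2
          omega
      rw [hq x, hsplit, hsplit]
      have e1 : ∑ C ∈ (univ : Finset (Fin k)).powerset.filter (fun C => C.card = D + 1), F C x =
          (∑ C ∈ (univ : Finset (Fin k)).powerset.filter (fun C => C.card = D + 1), g C x) +
          ∑ C ∈ (univ : Finset (Fin k)).powerset.filter (fun C => C.card = D + 1), r C x := by
        rw [← sum_add_distrib]
        refine sum_congr rfl fun C _ => ?_
        rw [hgr C]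
        rfl
      have e2 := hq' x
      have e3 : ∑ C ∈ (univ : Finset (Fin k)).powerset.filter (fun C => C.card ≤ D),
          (if C.card = D + 1 then g C else if C.card ≤ D then g' C else 0) x =
          ∑ C ∈ (univ : Finset (Fin k)).powerset.filter (fun C => C.card ≤ D), g' C x := by
        refine sum_congr rfl fun C hC => ?_
        have h1 := (mem_filter.1 hC).2
        rw [if_neg (by omega), if_pos h1]
      have e4 : ∑ C ∈ (univ : Finset (Fin k)).powerset.filter (fun C => C.card = D + 1),
          (if C.card = D + 1 then g C else if C.card ≤ D then g' C else 0) x =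
          ∑ C ∈ (univ : Finset (Fin k)).powerset.filter (fun C => C.card = D + 1), g C x := by
        refine sum_congr rfl fun C hC => ?_
        rw [if_pos (mem_filter.1 hC).2]
      rw [e3, e4, e1, ← e2]
      ring

end Pool.Agent.H97.CM
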