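import Pool.Agent.H97.CL.Glue

/-!
# Project CM: consistent local densities from slots

A label of the block `i` is a function `t : Fin k → G`; `v i` is the density of the valid labels, `κ` the
density of the allowed sums `z i j + z j i`.  `hU`: under `v a` at most `h - 2` slots are independent and
uniform.  `PP S A z = ∏_{i ∈ A} v_i(z_i) ∏_{i < j ∈ A} κ(z_i j + z_j i)` is consistent for `#A < h`.
-/

set_option autoImplicit false

namespace Pool.Agent.H97.CM

open Finset
open Pool.Agent.H97.CL

/-- the data of a gadget -/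
structure Sys (k h : ℕ) (G : Type) [Fintype G] [AddCommGroup G] where
  κ : G → ℝ
  v : Fin k → (Fin k → G) → ℝ
  κ0 : ∀ g, 0 ≤ κ g
  κ1 : av κ = 1
  v0 : ∀ i t, 0 ≤ v i t
  hU : ∀ (a : Fin k) (B : Finset (Fin k)), a ∉ B → B.card + 2 ≤ h → ∀ F : (Fin k → G) → ℝ,
    DepOn B F → av (fun t => v a t * F t) = av F

variable {k h : ℕ} {G : Type} [Fintype G] [AddCommGroup G]

/-- the local densities -/
noncomputable def PP (S : Sys k h G) (A : Finset (Fin k)) (z : Fin k → Fin k → G) : ℝ :=
  (∏ i ∈ A, S.v i (z i)) * ∏ i ∈ A, ∏ j ∈ A, if i < j then S.κ (z i j + z j i) else 1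

/-- the factor of a new block -/
noncomputable def ext (S : Sys k h G) (a : Fin k) (A : Finset (Fin k)) (t : Fin k → G)
    (z : Fin k → Fin k → G) : ℝ :=
  S.v a t * ∏ b ∈ A, S.κ (t b + z b a)

theorem PP_nonneg (S : Sys k h G) (A : Finset (Fin k)) (z : Fin k → Fin k → G) : 0 ≤ PP S A z := by
  unfold PP
  refine mul_nonneg (prod_nonneg fun i _ => S.v0 _ _) (prod_nonneg fun i _ => prod_nonneg fun j _ => ?_)
  split_ifs
  · exact S.κ0 _
  · exact zero_le_one

theorem ext_nonneg (S : Sys k h G) (a : Fin k) (A : Finset (Fin k)) (t : Fin k → G)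
    (z : Fin k → Fin k → G) : 0 ≤ ext S a A t z :=
  mul_nonneg (S.v0 _ _) (prod_nonneg fun _ _ => S.κ0 _)

theorem PP_dep (S : Sys k h G) (A : Finset (Fin k)) : DepOn A (PP S A) := by
  intro x y hxy
  unfold PP
  rw [prod_congr rfl (fun i hi => by rw [hxy i hi] : ∀ i ∈ A, S.v i (x i) = S.v i (y i))]
  congr 1
  refine prod_congr rfl fun i hi => prod_congr rfl fun j hj => ?_
  rw [hxy i hi, hxy j hj]

theorem PP_empty (S : Sys k h G) (z : Fin k → Fin k → G) : PP S ∅ z = 1 := by simp [PP]

theorem PP_insert (S : Sys k h G) (a : Fin k) (A : Finset (Fin k)) (ha : a ∉ A)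
    (z : Fin k → Fin k → G) : PP S (insert a A) z = PP S A z * ext S a A (z a) z := by
  unfold PP ext
  rw [prod_insert ha, prod_insert ha, prod_insert ha, if_neg (lt_irrefl a), one_mul]
  have h1 : ∏ i ∈ A, ∏ j ∈ insert a A, (if i < j then S.κ (z i j + z j i) else 1) =
      (∏ i ∈ A, if i < a then S.κ (z i a + z a i) else 1) *
        ∏ i ∈ A, ∏ j ∈ A, if i < j then S.κ (z i j + z j i) else 1 := by
    rw [← prod_mul_distrib]
    exact prod_congr rfl fun i _ => prod_insert ha
  have h2 : (∏ j ∈ A, if a < j then S.κ (z a j + z j a) else 1) *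
      (∏ i ∈ A, if i < a then S.κ (z i a + z a i) else 1) = ∏ b ∈ A, S.κ (z a b + z b a) := by
    rw [← prod_mul_distrib]
    refine prod_congr rfl fun b hb => ?_
    have hne : b ≠ a := fun h => ha (h ▸ hb)
    rcases lt_or_gt_of_ne hne with h | h
    · rw [if_neg (not_lt.2 h.le), if_pos h, one_mul, add_comm]
    · rw [if_pos h, if_neg (not_lt.2 h.le), mul_one]
  rw [h1, ← h2]
  ring

theorem av_shift (S : Sys k h G) (g : G) : av (fun x => S.κ (x + g)) = 1 := by
  rw [← S.κ1]
  exact av_equiv (Equiv.addRight g) S.κ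

theorem av_kap (S : Sys k h G) (B T : Finset (Fin k)) (hd : Disjoint B T) (y : Fin k → G)
    (F : (Fin k → G) → ℝ) (hF : DepOn T F) :
    av (fun t : Fin k → G => (∏ j ∈ B, S.κ (t j + y j)) * F t) = av F := by
  classical
  induction B using Finset.induction_on with
  | empty => simp
  | insert j B hj ih =>
    rw [disjoint_insert_left] at hd
    rw [← ih hd.2, ← av_update j (fun t : Fin k → G => (∏ i ∈ insert j B, S.κ (t i + y i)) * F t)]
    refine av_congr fun t => ?_
    have h1 : ∀ x : G, (∏ i ∈ insert j B, S.κ (Function.update t j x i + y i)) *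
        F (Function.update t j x) = S.κ (x + y j) * ((∏ i ∈ B, S.κ (t i + y i)) * F t) := by
      intro x
      rw [prod_insert hj, Function.update_self]
      have h2 : ∏ i ∈ B, S.κ (Function.update t j x i + y i) = ∏ i ∈ B, S.κ (t i + y i) := by
        refine prod_congr rfl fun i hi => ?_
        rw [Function.update_of_ne (ne_of_mem_of_not_mem hi hj)]
      have h3 : F (Function.update t j x) = F t := by
        refine hF _ _ fun i hi => ?_
        rw [Function.update_of_ne (ne_of_mem_of_not_mem hi hd.1)]
      rw [h2, h3]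
      ring
    rw [av_congr h1, av_mul_right, av_shift, one_mul]

/-- a new block: slots `B` are coupled, `F` depends on the slots `T` -/
theorem av_ext (S : Sys k h G) (a : Fin k) (B T : Finset (Fin k)) (haB : a ∉ B) (haT : a ∉ T)
    (hd : Disjoint B T) (hc : (B ∪ T).card + 2 ≤ h) (z : Fin k → Fin k → G)
    (F : (Fin k → G) → ℝ) (hF : DepOn T F) :
    av (fun t : Fin k → G => ext S a B t z * F t) = av F := by
  rw [← av_kap S B T hd (fun b => z b a) F hF]
  rw [← S.hU a (B ∪ T) (by simp [haB, haT]) hc (fun t => (∏ j ∈ B, S.κ (t j + z j a)) * F t)]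
  · refine av_congr fun t => ?_
    unfold ext
    ring
  · intro x y hxy
    have h1 : F x = F y := hF _ _ fun i hi => hxy i (mem_union_right _ hi)
    have h2 : ∏ j ∈ B, S.κ (x j + z j a) = ∏ j ∈ B, S.κ (y j + z j a) :=
      prod_congr rfl fun j hj => by rw [hxy j (mem_union_left _ hj)]
    simp only [h1, h2]

theorem ext_one (S : Sys k h G) (a : Fin k) (B : Finset (Fin k)) (haB : a ∉ B)
    (hc : B.card + 2 ≤ h) (z : Fin k → Fin k → G) : av (fun t => ext S a B t z) = 1 := by
  have h1 := av_ext S a B ∅ haB (notMem_empty a) (disjoint_empty_right B) (by simpa using hc) z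
    (fun _ => 1) (fun _ _ _ => rfl)
  rw [av_const] at h1
  rw [← h1]
  exact av_congr fun t => (mul_one _).symm

theorem ext_update (S : Sys k h G) (a : Fin k) (B : Finset (Fin k)) (haB : a ∉ B) (t s : Fin k → G)
    (z : Fin k → Fin k → G) : ext S a B t (Function.update z a s) = ext S a B t z := by
  unfold ext
  congr 1
  refine prod_congr rfl fun b hb => ?_
  rw [Function.update_of_ne (ne_of_mem_of_not_mem hb haB)]

theorem dep_update {A : Finset (Fin k)} {V : Type} {F : (Fin k → V) → ℝ} (hF : DepOn A F) (a : Fin k)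
    (ha : a ∉ A) (z : Fin k → V) (s : V) : F (Function.update z a s) = F z :=
  hF _ _ fun i hi => by rw [Function.update_of_ne (ne_of_mem_of_not_mem hi ha)]

theorem PP_cons_aux (S : Sys k h G) (I B C : Finset (Fin k)) (hB : B ⊆ I) (hC : Disjoint C I)
    (hA : (B ∪ C).card < h) (z : Fin k → Fin k → G) :
    av (fun y => PP S (B ∪ C) (I.piecewise z y)) = PP S B z := by
  classical
  induction C using Finset.induction_on with
  | empty =>
    have h1 : ∀ y : Fin k → Fin k → G, PP S (B ∪ ∅) (I.piecewise z y) = PP S B z := by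
      intro y
      rw [union_empty]
      exact PP_dep S B _ _ fun i hi => Finset.piecewise_eq_of_mem _ _ _ (hB hi)
    rw [av_congr h1, av_const]
  | insert a C ha ih =>
    rw [disjoint_insert_left] at hC
    have haB : a ∉ B := fun h => hC.1 (hB h)
    have haBC : a ∉ B ∪ C := by simp [haB, ha]
    rw [union_insert] at hA ⊢
    rw [card_insert_of_notMem haBC] at hA
    rw [← ih hC.2 (by omega),
      ← av_update a (fun y : Fin k → Fin k → G => PP S (insert a (B ∪ C)) (I.piecewise z y))]
    refine av_congr fun y => ?_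
    have h1 : ∀ t : Fin k → G, PP S (insert a (B ∪ C)) (I.piecewise z (Function.update y a t)) =
        PP S (B ∪ C) (I.piecewise z y) * ext S a (B ∪ C) t (I.piecewise z y) := by
      intro t
      have h2 : I.piecewise z (Function.update y a t) = Function.update (I.piecewise z y) a t := by
        funext i
        by_cases hi : i = a
        · subst hi
          simp [Finset.piecewise, hC.1]
        · by_cases hiI : i ∈ I <;> simp [Finset.piecewise, hi, hiI]
      rw [h2, PP_insert S a (B ∪ C) haBC, dep_update (PP_dep S (B ∪ C)) a haBC, Function.update_self,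
        ext_update S a (B ∪ C) haBC]
    rw [av_congr h1, av_mul_left, ext_one S a (B ∪ C) haBC (by omega), mul_one]

theorem PP_cons (S : Sys k h G) (A I : Finset (Fin k)) (hA : A.card < h) (z : Fin k → Fin k → G) :
    av (fun y => PP S A (I.piecewise z y)) = PP S (A ∩ I) z := by
  classical
  have e : (A ∩ I) ∪ (A \ I) = A := by
    rw [union_comm]
    exact sdiff_union_inter A I
  have h1 := PP_cons_aux S I (A ∩ I) (A \ I) inter_subset_right sdiff_disjoint (by rw [e]; exact hA) z
  rw [e] at h1
  exact h1

/-- the signed density -/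
noncomputable def WW (S : Sys k h G) : (Fin k → Fin k → G) → ℝ := glue h (PP S)

theorem WW_loc (S : Sys k h G) (I : Finset (Fin k)) (hI : I.card < h)
    (F : (Fin k → Fin k → G) → ℝ) (hF : DepOn I F) :
    av (fun z => WW S z * F z) = av (fun z => PP S I z * F z) := by
  rw [← av_piecewise I (fun z => WW S z * F z)]
  refine av_congr fun x => ?_
  have h1 : ∀ y : Fin k → Fin k → G, WW S (I.piecewise x y) * F (I.piecewise x y) =
      WW S (I.piecewise x y) * F x := by
    intro y
    rw [hF (I.piecewise x y) x fun i hi => Finset.piecewise_eq_of_mem _ _ _ hi]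
  rw [av_congr h1, av_mul_right]
  congr 1
  exact glue_marg h (PP S) (fun A I hA z => PP_cons S A I hA z) I hI x

theorem WW_one (S : Sys k h G) (hh : 1 ≤ h) : av (WW S) = 1 := by
  have h1 := WW_loc S ∅ (by rw [card_empty]; omega) (fun _ => 1) (fun _ _ _ => rfl)
  simp only [mul_one, PP_empty] at h1
  rw [av_const] at h1
  exact h1

/-- marginals of the local densities -/
theorem PP_marg (S : Sys k h G) (A B : Finset (Fin k)) (hA : A.card < h) (hB : B ⊆ A)
    (F : (Fin k → Fin k → G) → ℝ) (hF : DepOn B F) :
    av (fun z => PP S A z * F z) = av (fun z => PP S B z * F z) := by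
  have hFA : DepOn A F := fun x y hxy => hF x y fun i hi => hxy i (hB hi)
  rw [← WW_loc S A hA F hFA, ← WW_loc S B (lt_of_le_of_lt (card_le_card hB) hA) F hF]

end Pool.Agent.H97.CM
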